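import Pool.Agent.R974.BW.Defs

/-! Project BW (MP_0f8574_pr): piece MKV, the Markov property of the Wiener measure. -/

set_option autoImplicit false

namespace Pool.Agent.R506.BWM

open MeasureTheory ProbabilityTheory Filter Topology Set
open Pool.Agent.R967.FB Pool.Agent.R974.BW
open scoped ENNReal NNReal

theorem measurable_stp (s : ℝ≥0) : Measurable (stp s) :=
  measurable_path fun t => measurable_eval (min t s)

theorem indep_stp_shift {W : Measure Pth} (hW : IsWiener W) (s : ℝ≥0) :
    IndepFun (stp s) (shift s) W := by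
  have h1 := (hW.toIsPreBrownianReal.indepFun_shift s)
  have h2 : IndepFun (ev ∘ shift s) (ev ∘ stp s) W :=
    h1.comp (φ := id)
      (ψ := fun (f : Iic s → ℝ) (t : ℝ≥0) => f ⟨min t s, Set.mem_Iic.mpr (min_le_right t s)⟩) measurable_id
      (measurable_pi_lambda _ fun t =>
        measurable_pi_apply (⟨min t s, Set.mem_Iic.mpr (min_le_right t s)⟩ : Iic s))
  rw [IndepFun_iff_Indep] at h2 ⊢
  have e1 : ∀ f : Pth → Pth, MeasurableSpace.comap f pathMeasurableSpace =
      MeasurableSpace.comap (ev ∘ f) MeasurableSpace.pi := by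
    intro f
    rw [measurableSpace_eq_comap, MeasurableSpace.comap_comp]
  rw [e1, e1]
  exact h2.symm

theorem t_MKV : S_MKV := by
  intro W hW s Φ hΦ
  have hWp : IsProbabilityMeasure W := hW.isGaussianProcess.isProbabilityMeasure
  have hi := indep_stp_shift hW s
  have h1 : W.map (fun w => (stp s w, shift s w)) = (W.map (stp s)).prod (W.map (shift s)) :=
    (indepFun_iff_map_prod_eq_prod_map_map (measurable_stp s).aemeasurable
      (measurable_shift s).aemeasurable).mp hi
  rw [map_shift hW s] at h1
  have h2 : ∫⁻ w, Φ (stp s w, shift s w) ∂W =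
      ∫⁻ p, Φ p ∂(W.map (fun w => (stp s w, shift s w))) :=
    (lintegral_map hΦ ((measurable_stp s).prodMk (measurable_shift s))).symm
  have : IsProbabilityMeasure (W.map (stp s)) :=
    Measure.isProbabilityMeasure_map (measurable_stp s).aemeasurable
  rw [h2, h1, lintegral_prod _ hΦ.aemeasurable,
    lintegral_map hΦ.lintegral_prod_right' (measurable_stp s)]

end Pool.Agent.R506.BWM
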