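import Pool.Agent.R974.BW.Defs

/-! Project BW (MP_0f8574_pr): piece SA1, correlations of the window densities. -/

set_option autoImplicit false

namespace Pool.Agent.R506.BWS

open MeasureTheory ProbabilityTheory Filter Topology Set
open Pool.Agent.R967.FB Pool.Agent.R974.BW
open scoped ENNReal NNReal

theorem stp_apply (s : ℝ≥0) (w : Pth) (t : ℝ≥0) : stp s w t = w (min t s) := rfl

theorem stp_self (s : ℝ≥0) (w : Pth) : stp s w s = w s := by
  rw [stp_apply, min_self]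

theorem stp_mem_Up {x : ℝ} {s : ℝ≥0} {w : Pth} : stp s w ∈ Up x s ↔ w ∈ Up x s := by
  constructor
  · intro h t ht
    have := h t ht
    rwa [stp_apply, min_eq_left ht] at this
  · intro h t ht
    rw [stp_apply, min_eq_left ht]
    exact h t ht

theorem measurableSet_UpP (hU : S_UPM) (t : ℝ≥0) :
    MeasurableSet {q : ℝ × Pth | q.2 ∈ Up q.1 t} := (hU t).measurableSet

theorem measurableSet_Up (hU : S_UPM) (x : ℝ) (t : ℝ≥0) : MeasurableSet (Up x t) :=
  (measurable_prodMk_left (x := x)) (measurableSet_UpP hU t)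

noncomputable def G1 (r : ℝ≥0) : ℝ × Pth → ℝ≥0∞ :=
  {q : ℝ × Pth | q.2 ∈ Up q.1 r}.indicator (fun q => ENNReal.ofReal (1 / (q.1 + q.2 r)))

theorem measurable_G1 (hU : S_UPM) (r : ℝ≥0) : Measurable (G1 r) := by
  refine Measurable.indicator ?_ (measurableSet_UpP hU r)
  exact ((measurable_const).div
    (measurable_fst.add ((measurable_eval r).comp measurable_snd))).ennreal_ofReal

noncomputable def G2 (ε : ℝ) (r : ℝ≥0) : ℝ × Pth → ℝ≥0∞ :=
  {q : ℝ × Pth | q.2 ∈ Up q.1 (1 - r)}.indicator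
    (fun q => ENNReal.ofReal (1 / (q.1 + q.2 (1 - r))) *
      G1 r (ε + q.2 (1 - r), shift (1 - r) q.2))

theorem measurable_G2 (hU : S_UPM) (ε : ℝ) (r : ℝ≥0) : Measurable (G2 ε r) := by
  refine Measurable.indicator ?_ (measurableSet_UpP hU (1 - r))
  refine Measurable.mul ?_ ?_
  · exact ((measurable_const).div
      (measurable_fst.add ((measurable_eval (1 - r)).comp measurable_snd))).ennreal_ofReal
  · refine (measurable_G1 hU r).comp (Measurable.prodMk ?_ ?_)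
    · exact measurable_const.add ((measurable_eval (1 - r)).comp measurable_snd)
    · exact (measurable_shift (1 - r)).comp measurable_snd

theorem G1_of_mem {r : ℝ≥0} {x : ℝ} {w : Pth} (h : w ∈ Up x r) :
    G1 r (x, w) = ENNReal.ofReal (1 / (x + w r)) := by
  have h' : (x, w) ∈ {q : ℝ × Pth | q.2 ∈ Up q.1 r} := h
  rw [G1, Set.indicator_of_mem h']

theorem G1_of_not_mem {r : ℝ≥0} {x : ℝ} {w : Pth} (h : w ∉ Up x r) :
    G1 r (x, w) = 0 := by
  have h' : (x, w) ∉ {q : ℝ × Pth | q.2 ∈ Up q.1 r} := h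
  rw [G1, Set.indicator_of_notMem h']

theorem G2_of_mem {ε : ℝ} {r : ℝ≥0} {x : ℝ} {w : Pth} (h : w ∈ Up x (1 - r)) :
    G2 ε r (x, w) = ENNReal.ofReal (1 / (x + w (1 - r))) *
      G1 r (ε + w (1 - r), shift (1 - r) w) := by
  have h' : (x, w) ∈ {q : ℝ × Pth | q.2 ∈ Up q.1 (1 - r)} := h
  rw [G2, Set.indicator_of_mem h']

theorem G2_of_not_mem {ε : ℝ} {r : ℝ≥0} {x : ℝ} {w : Pth} (h : w ∉ Up x (1 - r)) :
    G2 ε r (x, w) = 0 := by
  have h' : (x, w) ∉ {q : ℝ × Pth | q.2 ∈ Up q.1 (1 - r)} := h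
  rw [G2, Set.indicator_of_notMem h']

theorem lintegral_G1 (hU : S_UPM) (hR : S_REF) {W : Measure Pth} (hW : IsWiener W) {r : ℝ≥0}
    {x : ℝ} (hx : 0 < x) (hr : 0 < r) :
    ∫⁻ w, G1 r (x, w) ∂W = KQ r (fun y => ENNReal.ofReal (1 / y)) x := by
  have h1 : ∀ w, G1 r (x, w) = (Up x r).indicator
      (fun w => ENNReal.ofReal (1 / (x + w r))) w := by
    intro w
    by_cases h : w ∈ Up x r
    · rw [G1_of_mem h, Set.indicator_of_mem h]
    · rw [G1_of_not_mem h, Set.indicator_of_notMem h]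
  simp_rw [h1]
  rw [lintegral_indicator (measurableSet_Up hU x r)]
  exact hR W hW x r (fun y => ENNReal.ofReal (1 / y)) hx hr
    (measurable_const.div measurable_id).ennreal_ofReal

theorem lintegral_G2 (hU : S_UPM) (hR : S_REF) (hM : S_MKV) (C₁ C₂ : ℝ≥0)
    (hC₁ : ∀ (t : ℝ≥0) (x : ℝ), 0 < t → 0 < x → KQ t (fun y => ENNReal.ofReal (1 / y)) x ≤
      C₁ * ENNReal.ofReal ((t : ℝ) ^ (-(1 / 4) : ℝ) * x ^ (-(1 / 2) : ℝ)))
    (hC₂ : ∀ (t : ℝ≥0) (x : ℝ), 1 / 2 ≤ t → t ≤ 1 → 0 < x → x ≤ 1 →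
      KQ t (fun y => ENNReal.ofReal (y ^ (-(3 / 2) : ℝ))) x ≤ C₂ * ENNReal.ofReal x)
    {W : Measure Pth} (hW : IsWiener W) {r : ℝ≥0} {a ε : ℝ} (ha : 0 < a) (ha1 : a ≤ 1)
    (haε : a ≤ ε) (hr : 0 < r) (hr2 : r ≤ 1 / 2) :
    ∫⁻ v, G2 ε r (a, v) ∂W ≤ C₁ * ENNReal.ofReal ((r : ℝ) ^ (-(1 / 4) : ℝ)) *
      (C₂ * ENNReal.ofReal a) := by
  have hr0 : (0 : ℝ) ≤ (r : ℝ) ^ (-(1 / 4) : ℝ) := Real.rpow_nonneg r.2 _
  set Φ : Pth × Pth → ℝ≥0∞ := {p : Pth × Pth | p.1 ∈ Up a (1 - r)}.indicator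
    (fun p => ENNReal.ofReal (1 / (a + p.1 (1 - r))) * G1 r (ε + p.1 (1 - r), p.2)) with hΦ
  have hΦm : Measurable Φ := by
    refine Measurable.indicator ?_ (measurable_fst (measurableSet_Up hU a (1 - r)))
    refine Measurable.mul ?_ ?_
    · exact ((measurable_const).div
        (measurable_const.add ((measurable_eval (1 - r)).comp measurable_fst))).ennreal_ofReal
    · refine (measurable_G1 hU r).comp (Measurable.prodMk ?_ measurable_snd)
      exact measurable_const.add ((measurable_eval (1 - r)).comp measurable_fst)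
  have h1 : ∀ v, G2 ε r (a, v) = Φ (stp (1 - r) v, shift (1 - r) v) := by
    intro v
    by_cases h : v ∈ Up a (1 - r)
    · have h' : (stp (1 - r) v, shift (1 - r) v) ∈ {p : Pth × Pth | p.1 ∈ Up a (1 - r)} :=
        stp_mem_Up.mpr h
      rw [G2_of_mem h, hΦ, Set.indicator_of_mem h']
      simp only [stp_self]
    · have h' : (stp (1 - r) v, shift (1 - r) v) ∉ {p : Pth × Pth | p.1 ∈ Up a (1 - r)} :=
        fun h'' => h (stp_mem_Up.mp h'')
      rw [G2_of_not_mem h, hΦ, Set.indicator_of_notMem h']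
  simp_rw [h1]
  rw [hM W hW (1 - r) Φ hΦm]
  have h2 : ∀ w₁, ∫⁻ w₂, Φ (stp (1 - r) w₁, w₂) ∂W ≤ (Up a (1 - r)).indicator
      (fun w => C₁ * ENNReal.ofReal ((r : ℝ) ^ (-(1 / 4) : ℝ)) *
        ENNReal.ofReal ((a + w (1 - r)) ^ (-(3 / 2) : ℝ))) w₁ := by
    intro w₁
    by_cases h : w₁ ∈ Up a (1 - r)
    · rw [Set.indicator_of_mem h]
      have h3 : ∀ w₂, Φ (stp (1 - r) w₁, w₂) = ENNReal.ofReal (1 / (a + w₁ (1 - r))) *
          G1 r (ε + w₁ (1 - r), w₂) := by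
        intro w₂
        have h' : (stp (1 - r) w₁, w₂) ∈ {p : Pth × Pth | p.1 ∈ Up a (1 - r)} :=
          stp_mem_Up.mpr h
        rw [hΦ, Set.indicator_of_mem h']
        simp only [stp_self]
      simp_rw [h3]
      have hu : 0 < a + w₁ (1 - r) := h (1 - r) le_rfl
      have hx' : 0 < ε + w₁ (1 - r) := by linarith
      have hmG : Measurable (fun w₂ => G1 r (ε + w₁ (1 - r), w₂)) :=
        (measurable_G1 hU r).comp measurable_prodMk_left
      rw [lintegral_const_mul _ hmG, lintegral_G1 hU hR hW hx' hr]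
      refine (mul_le_mul_right (hC₁ r _ hr hx') _).trans ?_
      have h4 : (ε + w₁ (1 - r)) ^ (-(1 / 2) : ℝ) ≤ (a + w₁ (1 - r)) ^ (-(1 / 2) : ℝ) :=
        Real.rpow_le_rpow_of_nonpos hu (by linarith) (by norm_num)
      have h5 : ENNReal.ofReal ((r : ℝ) ^ (-(1 / 4) : ℝ) * (ε + w₁ (1 - r)) ^ (-(1 / 2) : ℝ)) ≤
          ENNReal.ofReal ((r : ℝ) ^ (-(1 / 4) : ℝ)) *
            ENNReal.ofReal ((a + w₁ (1 - r)) ^ (-(1 / 2) : ℝ)) := by
        rw [← ENNReal.ofReal_mul hr0]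
        exact ENNReal.ofReal_le_ofReal (mul_le_mul_of_nonneg_left h4 hr0)
      have h6 : ENNReal.ofReal (1 / (a + w₁ (1 - r))) *
          ENNReal.ofReal ((a + w₁ (1 - r)) ^ (-(1 / 2) : ℝ)) =
          ENNReal.ofReal ((a + w₁ (1 - r)) ^ (-(3 / 2) : ℝ)) := by
        rw [← ENNReal.ofReal_mul (by positivity)]
        congr 1
        have h7 : (1 : ℝ) / (a + w₁ (1 - r)) = (a + w₁ (1 - r)) ^ (-1 : ℝ) := by
          rw [Real.rpow_neg_one, one_div]
        rw [h7, ← Real.rpow_add hu]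
        norm_num
      calc ENNReal.ofReal (1 / (a + w₁ (1 - r))) * (C₁ *
            ENNReal.ofReal ((r : ℝ) ^ (-(1 / 4) : ℝ) * (ε + w₁ (1 - r)) ^ (-(1 / 2) : ℝ)))
          ≤ ENNReal.ofReal (1 / (a + w₁ (1 - r))) * (C₁ *
            (ENNReal.ofReal ((r : ℝ) ^ (-(1 / 4) : ℝ)) *
            ENNReal.ofReal ((a + w₁ (1 - r)) ^ (-(1 / 2) : ℝ)))) :=
            mul_le_mul' le_rfl (mul_le_mul' le_rfl h5)
        _ = C₁ * ENNReal.ofReal ((r : ℝ) ^ (-(1 / 4) : ℝ)) *
            (ENNReal.ofReal (1 / (a + w₁ (1 - r))) *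
              ENNReal.ofReal ((a + w₁ (1 - r)) ^ (-(1 / 2) : ℝ))) := by ring
        _ ≤ _ := by rw [h6]
    · rw [Set.indicator_of_notMem h]
      have h3 : ∀ w₂, Φ (stp (1 - r) w₁, w₂) = 0 := by
        intro w₂
        have h' : (stp (1 - r) w₁, w₂) ∉ {p : Pth × Pth | p.1 ∈ Up a (1 - r)} :=
          fun h'' => h (stp_mem_Up.mp h'')
        rw [hΦ, Set.indicator_of_notMem h']
      simp_rw [h3]
      simp
  refine (lintegral_mono h2).trans ?_
  have hm3 : Measurable (fun y : ℝ => ENNReal.ofReal (y ^ (-(3 / 2) : ℝ))) :=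
    (measurable_id.pow_const _).ennreal_ofReal
  have hr3 : r ≤ 1 := hr2.trans (by
    rw [← NNReal.coe_le_coe]; push_cast; norm_num)
  have hr4 : 1 / 2 ≤ 1 - r := by
    rw [← NNReal.coe_le_coe, NNReal.coe_sub hr3]
    have : (r : ℝ) ≤ 1 / 2 := by
      have := NNReal.coe_le_coe.mpr hr2
      push_cast at this; exact this
    push_cast
    linarith
  have hr5 : 0 < 1 - r := lt_of_lt_of_le (by positivity) hr4
  have hm4 : Measurable (fun w : Pth => ENNReal.ofReal ((a + w (1 - r)) ^ (-(3 / 2) : ℝ))) :=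
    hm3.comp (measurable_const.add (measurable_eval (1 - r)))
  rw [lintegral_indicator (measurableSet_Up hU a (1 - r)), lintegral_const_mul _ hm4,
    hR W hW a (1 - r) _ ha hr5 hm3]
  exact mul_le_mul' le_rfl (hC₂ (1 - r) a hr4 tsub_le_self ha ha1)

theorem pointwise (h : ℝ → ℝ≥0∞) (hh : ∀ y : ℝ, 0 < y → h y ≤ ENNReal.ofReal (1 / y)) {ε : ℝ}
    {r : ℝ≥0} (hr3 : r ≤ 1) (w : Pth) (h1 : w ∈ Up ε 1)
    (h2 : shift r w ∈ Up ε 1) :
    w ∈ Up ε r ∧ (ENNReal.ofReal (1 / ε) * h (w 1 + ε)) *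
      (ENNReal.ofReal (1 / ε) * h (shift r w 1 + ε)) ≤
      ENNReal.ofReal (1 / ε) * ENNReal.ofReal (1 / ε) *
        G2 ε r (min (ε + w r) ε, shift r w) := by
  have hw : w ∈ Up ε r := fun s hs => h1 s (hs.trans hr3)
  refine ⟨hw, ?_⟩
  have hsum : r + (1 - r) = 1 := add_tsub_cancel_of_le hr3
  have hsum' : (1 - r) + r = 1 := tsub_add_cancel_of_le hr3
  have hv : shift r w ∈ Up (min (ε + w r) ε) (1 - r) := by
    intro s hs
    have e1 : 0 < ε + w (r + s) := h1 (r + s) (by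
      calc r + s ≤ r + (1 - r) := by gcongr
        _ = 1 := hsum)
    have e2 := h2 s (hs.trans tsub_le_self)
    rw [shift_apply] at e2 ⊢
    rcases min_choice (ε + w r) ε with e | e <;> rw [e] <;> linarith
  rw [G2_of_mem hv]
  have hv' : shift (1 - r) (shift r w) ∈ Up (ε + shift r w (1 - r)) r := by
    intro s hs
    have e2 := h2 (1 - r + s) (by
      calc 1 - r + s ≤ 1 - r + r := by gcongr
        _ = 1 := hsum')
    rw [shift_apply (1 - r)]
    linarith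
  rw [G1_of_mem hv']
  have hu : 0 < min (ε + w r) ε + shift r w (1 - r) := hv (1 - r) le_rfl
  have e3 : w 1 + ε = (ε + w r) + shift r w (1 - r) := by
    rw [shift_apply, hsum]; ring
  have e4 : ε + shift r w (1 - r) + shift (1 - r) (shift r w) r = shift r w 1 + ε := by
    rw [shift_apply (1 - r), hsum']; ring
  have e5 : h (w 1 + ε) ≤ ENNReal.ofReal (1 / (min (ε + w r) ε + shift r w (1 - r))) := by
    have e6 : min (ε + w r) ε + shift r w (1 - r) ≤ w 1 + ε := by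
      rw [e3]
      have := min_le_left (ε + w r) ε
      linarith
    refine (hh _ (lt_of_lt_of_le hu e6)).trans (ENNReal.ofReal_le_ofReal ?_)
    exact one_div_le_one_div_of_le hu e6
  have e7 : h (shift r w 1 + ε) ≤ ENNReal.ofReal
      (1 / (ε + shift r w (1 - r) + shift (1 - r) (shift r w) r)) := by
    rw [e4]
    refine hh _ ?_
    have := h2 1 le_rfl
    linarith
  calc (ENNReal.ofReal (1 / ε) * h (w 1 + ε)) * (ENNReal.ofReal (1 / ε) * h (shift r w 1 + ε))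
      = ENNReal.ofReal (1 / ε) * ENNReal.ofReal (1 / ε) *
        (h (w 1 + ε) * h (shift r w 1 + ε)) := by ring
    _ ≤ _ := mul_le_mul' le_rfl (mul_le_mul' e5 e7)

theorem t_SA1 (hM : S_MKV) (hR : S_REF) (hU : S_UPM) (hK1 : S_KB1) (hK2 : S_KB2) : S_SA1 := by
  obtain ⟨⟨C₁, hC₁⟩, ⟨C₂, hC₂⟩⟩ := hK2
  refine ⟨C₁ * C₂, ?_⟩
  intro W hW h ε r hhm hh hε hε1 hr hr2
  have hr3 : r ≤ 1 := hr2.trans (by
    rw [← NNReal.coe_le_coe]; push_cast; norm_num)
  set Ψ : Pth × Pth → ℝ≥0∞ := {p : Pth × Pth | p.1 ∈ Up ε r}.indicator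
    (fun p => ENNReal.ofReal (1 / ε) * ENNReal.ofReal (1 / ε) *
      G2 ε r (min (ε + p.1 r) ε, p.2)) with hΨ
  have hΨm : Measurable Ψ := by
    refine Measurable.indicator ?_ (measurable_fst (measurableSet_Up hU ε r))
    refine Measurable.const_mul ?_ _
    refine (measurable_G2 hU ε r).comp (Measurable.prodMk ?_ measurable_snd)
    exact (measurable_const.add ((measurable_eval r).comp measurable_fst)).min measurable_const
  have h1 : ∀ w, fw h ε w * fw h ε (shift r w) ≤ Ψ (stp r w, shift r w) := by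
    intro w
    by_cases hw : w ∈ Up ε 1
    · by_cases hv : shift r w ∈ Up ε 1
      · obtain ⟨hw', hle⟩ := pointwise h hh hr3 w hw hv
        have h' : (stp r w, shift r w) ∈ {p : Pth × Pth | p.1 ∈ Up ε r} := stp_mem_Up.mpr hw'
        rw [fw, fw, Set.indicator_of_mem hw, Set.indicator_of_mem hv, hΨ,
          Set.indicator_of_mem h']
        simp only [stp_self]
        exact hle
      · have : fw h ε (shift r w) = 0 := by rw [fw, Set.indicator_of_notMem hv]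
        rw [this, mul_zero]; exact zero_le
    · have : fw h ε w = 0 := by rw [fw, Set.indicator_of_notMem hw]
      rw [this, zero_mul]; exact zero_le
  refine (lintegral_mono h1).trans ?_
  rw [hM W hW r Ψ hΨm]
  have h2 : ∀ w₁, ∫⁻ w₂, Ψ (stp r w₁, w₂) ∂W ≤ (Up ε r).indicator
      (fun _ => ENNReal.ofReal (1 / ε) * ENNReal.ofReal (1 / ε) *
        (C₁ * ENNReal.ofReal ((r : ℝ) ^ (-(1 / 4) : ℝ)) * (C₂ * ENNReal.ofReal ε)) * 1) w₁ := by
    intro w₁
    by_cases hw : w₁ ∈ Up ε r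
    · rw [Set.indicator_of_mem hw]
      have h3 : ∀ w₂, Ψ (stp r w₁, w₂) = ENNReal.ofReal (1 / ε) * ENNReal.ofReal (1 / ε) *
          G2 ε r (min (ε + w₁ r) ε, w₂) := by
        intro w₂
        have h' : (stp r w₁, w₂) ∈ {p : Pth × Pth | p.1 ∈ Up ε r} := stp_mem_Up.mpr hw
        rw [hΨ, Set.indicator_of_mem h']
        simp only [stp_self]
      simp_rw [h3]
      have hmG : Measurable (fun w₂ => G2 ε r (min (ε + w₁ r) ε, w₂)) :=
        (measurable_G2 hU ε r).comp measurable_prodMk_left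
      rw [lintegral_const_mul _ hmG, mul_one]
      refine mul_le_mul' le_rfl ?_
      have hy : 0 < ε + w₁ r := hw r le_rfl
      refine (lintegral_G2 hU hR hM C₁ C₂ hC₁ hC₂ hW (lt_min hy hε)
        ((min_le_right _ _).trans hε1) (min_le_right _ _) hr hr2).trans ?_
      refine mul_le_mul' le_rfl (mul_le_mul' le_rfl ?_)
      exact ENNReal.ofReal_le_ofReal (min_le_right _ _)
    · rw [Set.indicator_of_notMem hw]
      have h3 : ∀ w₂, Ψ (stp r w₁, w₂) = 0 := by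
        intro w₂
        have h' : (stp r w₁, w₂) ∉ {p : Pth × Pth | p.1 ∈ Up ε r} :=
          fun h'' => hw (stp_mem_Up.mp h'')
        rw [hΨ, Set.indicator_of_notMem h']
      simp_rw [h3]
      simp
  refine (lintegral_mono h2).trans ?_
  rw [lintegral_indicator (measurableSet_Up hU ε r), lintegral_const_mul _ measurable_const]
  have h4 := hR W hW ε r (fun _ => 1) hε hr measurable_const
  rw [h4]
  refine (mul_le_mul' le_rfl (hK1.1 r ε hr hε)).trans ?_
  have hrp : (0 : ℝ) < r := hr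
  have e1 : ENNReal.ofReal (1 / ε) * ENNReal.ofReal (1 / ε) *
      (C₁ * ENNReal.ofReal ((r : ℝ) ^ (-(1 / 4) : ℝ)) * (C₂ * ENNReal.ofReal ε)) *
      ENNReal.ofReal (ε * (r : ℝ) ^ (-(1 / 2) : ℝ)) =
      ((C₁ : ℝ≥0∞) * C₂) * (ENNReal.ofReal (1 / ε) * ENNReal.ofReal (1 / ε) *
        ENNReal.ofReal ((r : ℝ) ^ (-(1 / 4) : ℝ)) * ENNReal.ofReal ε *
        ENNReal.ofReal (ε * (r : ℝ) ^ (-(1 / 2) : ℝ))) := by ring
  rw [e1]
  push_cast
  refine mul_le_mul' le_rfl (le_of_eq ?_)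
  rw [← ENNReal.ofReal_mul (by positivity), ← ENNReal.ofReal_mul (by positivity),
    ← ENNReal.ofReal_mul (by positivity), ← ENNReal.ofReal_mul (by positivity)]
  congr 1
  have e2 : (r : ℝ) ^ (-(3 / 4) : ℝ) = (r : ℝ) ^ (-(1 / 4) : ℝ) * (r : ℝ) ^ (-(1 / 2) : ℝ) := by
    rw [← Real.rpow_add hrp]; norm_num
  rw [e2]
  field_simp

end Pool.Agent.R506.BWS
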