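import Mathlib

set_option autoImplicit false

/-!
# Powerful parts of three consecutive integers

`H n + P n * √2 = (1 + √2) ^ n`.  We build integers `t` with `t ^ 2 ∣ H (3 t)` and look at
`n = H (3t-1)^2 - 2`, `n + 1 = 2 * P (3t-1)^2`, `n + 2 = H (3t-1)^2`.
-/

namespace Pool.Agent.R506.PowPart

/-- The pair `(H n, P n)` with `H n + P n * √2 = (1 + √2) ^ n`. -/
def HP : ℕ → ℤ × ℤ
  | 0 => (1, 0)
  | n + 1 => ((HP n).1 + 2 * (HP n).2, (HP n).1 + (HP n).2)

/-- rational part -/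
def H (n : ℕ) : ℤ := (HP n).1
/-- irrational part -/
def P (n : ℕ) : ℤ := (HP n).2

lemma H_zero : H 0 = 1 := rfl
lemma P_zero : P 0 = 0 := rfl
lemma H_succ (n : ℕ) : H (n + 1) = H n + 2 * P n := rfl
lemma P_succ (n : ℕ) : P (n + 1) = H n + P n := rfl

lemma HP_add (m n : ℕ) :
    H (m + n) = H m * H n + 2 * P m * P n ∧ P (m + n) = H m * P n + P m * H n := by
  induction n with
  | zero => simp [H_zero, P_zero]
  | succ n ih =>
    obtain ⟨h1, h2⟩ := ih
    rw [← add_assoc, H_succ, P_succ, H_succ, P_succ, h1, h2]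
    constructor <;> ring

lemma norm_eq (n : ℕ) : H n ^ 2 - 2 * P n ^ 2 = (-1) ^ n := by
  induction n with
  | zero => simp [H_zero, P_zero]
  | succ n ih =>
    rw [H_succ, P_succ, pow_succ (-1 : ℤ) n, ← ih]; ring

lemma one_le_H (n : ℕ) : 1 ≤ H n ∧ 0 ≤ P n := by
  induction n with
  | zero => simp [H_zero, P_zero]
  | succ n ih =>
    rw [H_succ, P_succ]
    omega

lemma le_HP (n : ℕ) : (n : ℤ) ≤ P n ∧ (n : ℤ) ≤ H n := by
  induction n with
  | zero => simp [H_zero, P_zero]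
  | succ n ih =>
    have := one_le_H n
    rw [H_succ, P_succ]
    push_cast
    omega

lemma H_odd (n : ℕ) : Odd (H n) := by
  induction n with
  | zero => simp [H_zero]
  | succ n ih =>
    rw [H_succ]
    exact ih.add_even (even_two_mul _)

lemma odd_mult (a j : ℕ) : ∃ z w : ℤ,
    H ((2 * j + 1) * a) = (2 * j + 1) * H a * (2 * P a ^ 2) ^ j + H a ^ 2 * z ∧
    P ((2 * j + 1) * a) = P a * (2 * P a ^ 2) ^ j + H a * w := by
  induction j with
  | zero => exact ⟨0, 0, by simp, by simp⟩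
  | succ j ih =>
    obtain ⟨z, w, h1, h2⟩ := ih
    have e : (2 * (j + 1) + 1) * a = (2 * j + 1) * a + (a + a) := by ring
    obtain ⟨g1, g2⟩ := HP_add ((2 * j + 1) * a) (a + a)
    obtain ⟨k1, k2⟩ := HP_add a a
    rw [e, g1, g2, k1, k2, h1, h2]
    refine ⟨(2 * j + 1) * H a * (2 * P a ^ 2) ^ j + z * (H a ^ 2 + 2 * P a ^ 2) + 4 * w * P a,
      2 * P a * ((2 * j + 1) * H a * (2 * P a ^ 2) ^ j + H a ^ 2 * z)
        + P a * (2 * P a ^ 2) ^ j * H a + w * (H a ^ 2 + 2 * P a ^ 2), ?_, ?_⟩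
    · push_cast; ring
    · push_cast; ring

lemma H_dvd_odd_mul (a k : ℕ) (hk : Odd k) : H a ∣ H (k * a) := by
  obtain ⟨j, rfl⟩ := hk
  obtain ⟨z, w, h1, h2⟩ := odd_mult a j
  rw [h1]
  refine dvd_add ?_ ?_
  · exact Dvd.intro_left _ (by ring : (2 * (j : ℤ) + 1) * (2 * P a ^ 2) ^ j * H a = _)
  · exact Dvd.intro _ (by ring : H a * (H a * z) = _)

lemma sq_dvd_of_dvd (a p : ℕ) (hp : Odd p) (h : (p : ℤ) ∣ H a) : (p : ℤ) ^ 2 ∣ H (p * a) := by
  obtain ⟨j, rfl⟩ := hp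
  obtain ⟨z, w, h1, h2⟩ := odd_mult a j
  obtain ⟨c, hc⟩ := h
  rw [h1, hc]
  refine ⟨c * (2 * P a ^ 2) ^ j + c ^ 2 * z, ?_⟩
  push_cast
  ring

lemma e_pow {R : Type*} [CommRing R] (s : R) (hs : s ^ 2 = 2) (n : ℕ) :
    (1 + s) ^ n = (H n : R) + (P n : R) * s := by
  induction n with
  | zero => simp [H_zero, P_zero]
  | succ n ih =>
    rw [pow_succ, ih, H_succ, P_succ]
    push_cast
    linear_combination (P n : R) * hs

lemma lt_of_prime_dvd (p q : ℕ) (hp : p.Prime) (hq : q.Prime) (hodd : Odd q)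
    (h : (p : ℤ) ∣ H q) : q < p := by
  have : Fact p.Prime := ⟨hp⟩
  have h0 : (H q : ZMod p) = 0 := (ZMod.intCast_zmod_eq_zero_iff_dvd _ _).2 h
  have hn := norm_eq q
  rw [hodd.neg_one_pow] at hn
  have hn' : (H q : ZMod p) ^ 2 - 2 * (P q : ZMod p) ^ 2 = -1 := by exact_mod_cast congrArg (Int.cast : ℤ → ZMod p) hn
  rw [h0] at hn'
  have h2 : 2 * (P q : ZMod p) ^ 2 = 1 := by linear_combination -hn'
  have hs : (2 * (P q : ZMod p)) ^ 2 = 2 := by linear_combination 2 * h2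
  have he := e_pow (2 * (P q : ZMod p)) hs q
  have he1 : (1 + 2 * (P q : ZMod p)) ^ q = 1 := by
    rw [he, h0]; linear_combination h2
  have hne : (1 + 2 * (P q : ZMod p)) ≠ 1 := by
    intro hh
    have h3 : 2 * (P q : ZMod p) = 0 := by linear_combination hh
    have h4 : (1 : ZMod p) = 0 := by
      rw [← h2]; linear_combination (P q : ZMod p) * h3
    exact one_ne_zero h4
  have hne0 : (1 + 2 * (P q : ZMod p)) ≠ 0 := by
    intro hh
    rw [hh, zero_pow hq.ne_zero] at he1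
    exact zero_ne_one he1
  have : Fact q.Prime := ⟨hq⟩
  have ho : orderOf (1 + 2 * (P q : ZMod p)) = q := orderOf_eq_prime he1 hne
  have hd := ZMod.orderOf_dvd_card_sub_one hne0
  rw [ho] at hd
  have h5 := Nat.le_of_dvd (Nat.sub_pos_of_lt hp.one_lt) hd
  have h6 := hp.two_le
  have h7 : (q : ℕ) ≤ p - 1 := h5
  omega

lemma exists_t (N : ℕ) : ∃ t q : ℕ, N ≤ t ∧ Odd t ∧ q.Prime ∧ q ∣ 3 * t ∧
    (∀ r : ℕ, r.Prime → r ∣ 3 * t → r ≤ q) ∧ (t : ℤ) ^ 2 ∣ H (3 * t) := by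
  induction N with
  | zero =>
    refine ⟨1, 3, by norm_num, odd_one, Nat.prime_three, by norm_num, ?_, by norm_num⟩
    intro r hr hd
    exact Nat.le_of_dvd (by norm_num) (by simpa using hd)
  | succ N ih =>
    obtain ⟨t, q, hN, hodd, hq, hqt, hmax, hdvd⟩ := ih
    have h3t : Odd (3 * t) := (by decide : Odd 3).mul hodd
    have hqodd : Odd q := Odd.of_dvd_nat h3t hqt
    -- a prime factor of `H q`
    have hHq : 1 < H q := by
      have := (le_HP q).2
      have := hq.two_le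
      omega
    have hne : (H q).natAbs ≠ 1 := by omega
    obtain ⟨p, hp, hpd⟩ := Nat.exists_prime_and_dvd hne
    have hpd' : (p : ℤ) ∣ H q := Int.natCast_dvd.2 hpd
    have hpq : q < p := lt_of_prime_dvd p q hp hq hqodd hpd'
    have hpodd : Odd p := by
      have : Odd (H q).natAbs := Int.natAbs_odd.2 (H_odd q)
      exact Odd.of_dvd_nat this hpd
    have hpt : ¬ p ∣ 3 * t := fun hh => absurd (hmax p hp hh) (by omega)
    have hpt' : ¬ p ∣ t := fun hh => hpt (Dvd.dvd.mul_left hh 3)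
    have hcop : Nat.Coprime t p := ((Nat.Prime.coprime_iff_not_dvd hp).2 hpt').symm
    have hpH : (p : ℤ) ∣ H (3 * t) := by
      obtain ⟨k, hk⟩ := hqt
      have hkodd : Odd k := by
        rw [hk] at h3t
        exact (Nat.odd_mul.1 h3t).2
      have := H_dvd_odd_mul q k hkodd
      rw [hk, mul_comm q k]
      exact hpd'.trans this
    refine ⟨t * p, p, ?_, hodd.mul hpodd, hp, ?_, ?_, ?_⟩
    · have h1 : 1 ≤ t := hodd.pos
      have h2 := hp.two_le
      nlinarith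
    · exact ⟨3 * t, by ring⟩
    · intro r hr hrd
      rw [← mul_assoc] at hrd
      rcases (Nat.Prime.dvd_mul hr).1 hrd with h | h
      · exact (hmax r hr h).trans hpq.le
      · exact ((Nat.prime_dvd_prime_iff_eq hr hp).1 h).le
    · have e : 3 * (t * p) = p * (3 * t) := by ring
      rw [e]
      have h1 : (t : ℤ) ^ 2 ∣ H (p * (3 * t)) := hdvd.trans (H_dvd_odd_mul _ _ hpodd)
      have h2 : (p : ℤ) ^ 2 ∣ H (p * (3 * t)) := sq_dvd_of_dvd _ _ hpodd hpH
      have hc : IsCoprime ((t : ℤ) ^ 2) ((p : ℤ) ^ 2) :=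
        (Nat.isCoprime_iff_coprime.2 hcop).pow
      push_cast
      rw [mul_pow]
      exact hc.mul_dvd h1 h2

/-- The powerful part `Q₂(m) = ∏_{p : v_p(m) ≥ 2} p ^ v_p(m)`. -/
def Q2 (m : ℕ) : ℕ :=
  ∏ p ∈ m.primeFactors.filter (fun p => 2 ≤ m.factorization p), p ^ m.factorization p

lemma Q2_pos (m : ℕ) : 0 < Q2 m := by
  unfold Q2
  apply Finset.prod_pos
  intro p hp
  rw [Finset.mem_filter] at hp
  exact pow_pos (Nat.prime_of_mem_primeFactors hp.1).pos _

lemma dvd_Q2 (m d : ℕ) (hm : m ≠ 0) (hd : d ∣ m)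
    (hpow : ∀ p : ℕ, p.Prime → p ∣ d → p ^ 2 ∣ d) : d ∣ Q2 m := by
  have hd0 : d ≠ 0 := fun h => hm (by rw [h] at hd; exact zero_dvd_iff.1 hd)
  have key : d = ∏ p ∈ d.primeFactors, p ^ d.factorization p :=
    (Nat.prod_factorization_pow_eq_self hd0).symm
  have hle : ∀ p, d.factorization p ≤ m.factorization p :=
    fun p => (Nat.factorization_le_iff_dvd hd0 hm).2 hd p
  rw [key]
  unfold Q2
  refine (Finset.prod_dvd_prod_of_dvd _ (fun p => p ^ m.factorization p) ?_).trans ?_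
  · intro p _
    exact pow_dvd_pow _ (hle p)
  · apply Finset.prod_dvd_prod_of_subset
    intro p hp
    have hpp := Nat.prime_of_mem_primeFactors hp
    have hpd := Nat.dvd_of_mem_primeFactors hp
    rw [Finset.mem_filter]
    refine ⟨Nat.mem_primeFactors.2 ⟨hpp, hpd.trans hd, hm⟩, ?_⟩
    have := (hpp.pow_dvd_iff_le_factorization hd0).1 (hpow p hpp hpd)
    exact this.trans (hle p)

lemma Q2_dvd (m : ℕ) (hm : m ≠ 0) : Q2 m ∣ m := by
  conv_rhs => rw [← Nat.prod_factorization_pow_eq_self hm]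
  unfold Q2
  exact Finset.prod_dvd_prod_of_subset _ _ _ (Finset.filter_subset _ _)

lemma Q2_powerful (m : ℕ) (p : ℕ) (hp : p.Prime) (h : p ∣ Q2 m) : p ^ 2 ∣ Q2 m := by
  unfold Q2 at h ⊢
  rw [Prime.dvd_finsetProd_iff hp.prime] at h
  obtain ⟨q, hq, hpq⟩ := h
  have hq' := hq
  rw [Finset.mem_filter] at hq
  have hqp := Nat.prime_of_mem_primeFactors hq.1
  have : p = q := (Nat.prime_dvd_prime_iff_eq hp hqp).1 (hp.dvd_of_dvd_pow hpq)
  subst this
  exact (pow_dvd_pow p hq.2).trans (Finset.dvd_prod_of_mem (fun p => p ^ m.factorization p) hq')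

/-- From `t` with `t² ∣ H (3t)` to three consecutive integers. -/
lemma exists_triple (N : ℕ) : ∃ n t : ℕ, N ≤ n ∧ 1 ≤ n ∧
    Real.log n ≤ t * (3 * Real.log (3 + 2 * √2)) ∧
    t ^ 2 * (n + 1) * (n + 2) ≤ Q2 n * Q2 (n + 1) * Q2 (n + 2) := by
  obtain ⟨t, q, hN, hodd, -, -, -, hdvd⟩ := exists_t (N + 1)
  have h3t : Odd (3 * t) := (by decide : Odd 3).mul hodd
  obtain ⟨j, hj⟩ := h3t
  have hjpos : 1 ≤ j := by omega
  -- the two numbers
  set A := H (2 * j) with hA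
  set B := P (2 * j) with hB
  have hnorm : A ^ 2 - 2 * B ^ 2 = 1 := by
    have := norm_eq (2 * j)
    rwa [(even_two_mul j).neg_one_pow] at this
  have hA1 : (2 * j : ℤ) ≤ A := by
    have := (le_HP (2 * j)).2
    push_cast at this
    exact this
  have hB1 : (2 * j : ℤ) ≤ B := by
    have := (le_HP (2 * j)).1
    push_cast at this
    exact this
  have hBeven : ∃ b : ℤ, B = 2 * b := by
    refine ⟨H j * P j, ?_⟩
    have := (HP_add j j).2
    rw [hB, two_mul, this]; ring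
  obtain ⟨b, hb⟩ := hBeven
  have hH : H (3 * t) = A + 2 * B := by rw [hj, H_succ]
  rw [hH] at hdvd
  -- pass to naturals
  obtain ⟨a, ha⟩ := Int.eq_ofNat_of_zero_le (show (0 : ℤ) ≤ A by omega)
  obtain ⟨β, hβ⟩ := Int.eq_ofNat_of_zero_le (show (0 : ℤ) ≤ b by omega)
  rw [hβ] at hb
  rw [ha] at hnorm hA1 hdvd
  rw [hb] at hnorm hB1 hdvd
  have ha2 : 2 ≤ a := by omega
  have haN : N ≤ a := by omega
  have hnat : a ^ 2 = 8 * β ^ 2 + 1 := by
    have : (a : ℤ) ^ 2 = 8 * (β : ℤ) ^ 2 + 1 := by linear_combination hnorm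
    exact_mod_cast this
  have ha3 : 3 ≤ a := by
    have : 1 ≤ β := by
      by_contra hcon
      have : β = 0 := by omega
      subst this
      simp at hB1
      omega
    nlinarith
  set n := a ^ 2 - 2 with hn
  have hn0 : n + 2 = a ^ 2 := by
    have : 2 ≤ a ^ 2 := by nlinarith
    omega
  have hn1 : n + 1 = 8 * β ^ 2 := by omega
  have hnge : a ≤ n := by
    have : a + 2 ≤ a ^ 2 := by nlinarith
    omega
  have hdn : t ^ 2 ∣ n := by
    have h1 : ((n : ℕ) : ℤ) = (2 * (2 * (β : ℤ)) - a) * (a + 2 * (2 * β)) := by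
      have e1 : ((n : ℕ) : ℤ) + 2 = (a : ℤ) ^ 2 := by exact_mod_cast hn0
      have e2 : (a : ℤ) ^ 2 = 8 * (β : ℤ) ^ 2 + 1 := by exact_mod_cast hnat
      linear_combination e1 + 2 * e2
    have h2 : ((t : ℤ)) ^ 2 ∣ ((n : ℕ) : ℤ) := by
      rw [h1]
      exact Dvd.dvd.mul_left hdvd _
    exact_mod_cast h2
  refine ⟨n, t, haN.trans hnge, by omega, ?_, ?_⟩
  · -- logarithm
    have hs : (√2 : ℝ) ^ 2 = 2 := Real.sq_sqrt (by norm_num)
    have he := e_pow (√2 : ℝ) hs (2 * j)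
    have hBr : (0 : ℝ) ≤ (P (2 * j) : ℝ) := by exact_mod_cast (one_le_H (2 * j)).2
    have hAr : ((H (2 * j) : ℤ) : ℝ) = (a : ℝ) := by
      rw [← hA, ha]; simp
    have hale : (a : ℝ) ≤ (1 + √2) ^ (2 * j) := by
      rw [he, hAr]
      have := mul_nonneg hBr (Real.sqrt_nonneg 2)
      linarith
    have hsq : (1 + √2 : ℝ) ^ 2 = 3 + 2 * √2 := by linear_combination hs
    have hale' : (a : ℝ) ≤ (3 + 2 * √2) ^ j := by
      rwa [pow_mul, hsq] at hale
    have hnle : (n : ℝ) ≤ ((3 + 2 * √2) ^ j) ^ 2 := by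
      have h1 : ((n : ℕ) : ℝ) ≤ (a : ℝ) ^ 2 := by
        have : n ≤ a ^ 2 := by omega
        exact_mod_cast this
      have h2 : (a : ℝ) ^ 2 ≤ ((3 + 2 * √2) ^ j) ^ 2 := by
        have : (0 : ℝ) ≤ a := by positivity
        gcongr
      exact h1.trans h2
    have hnpos : (0 : ℝ) < n := by
      have : 0 < n := by omega
      exact_mod_cast this
    have hL : 0 ≤ Real.log (3 + 2 * √2) := by
      apply Real.log_nonneg
      have := Real.sqrt_nonneg 2
      linarith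
    have h3 := Real.log_le_log hnpos hnle
    rw [Real.log_pow, Real.log_pow] at h3
    have hjt : (2 * j : ℝ) + 1 = 3 * t := by exact_mod_cast hj.symm
    push_cast at h3
    nlinarith
  · -- powerful parts
    have p1 : t ^ 2 ∣ Q2 n := by
      apply dvd_Q2 n _ (by omega) hdn
      intro p hp hpd
      have := hp.dvd_of_dvd_pow hpd
      exact pow_dvd_pow_of_dvd this 2
    have p2 : (n + 1) ∣ Q2 (n + 1) := by
      apply dvd_Q2 (n + 1) _ (by omega) dvd_rfl
      intro p hp hpd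
      rw [hn1] at hpd ⊢
      have h1 : p ∣ 8 ∨ p ∣ β := by
        rcases (Nat.Prime.dvd_mul hp).1 hpd with h | h
        · exact Or.inl h
        · exact Or.inr (hp.dvd_of_dvd_pow h)
      rcases h1 with h | h
      · have : p ∣ 2 := by
          have h8 : (8 : ℕ) = 2 ^ 3 := by norm_num
          rw [h8] at h
          exact hp.dvd_of_dvd_pow h
        have hp2 : p = 2 := (Nat.prime_dvd_prime_iff_eq hp Nat.prime_two).1 this
        subst hp2
        exact Dvd.dvd.mul_right (by norm_num) _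
      · exact Dvd.dvd.mul_left (pow_dvd_pow_of_dvd h 2) _
    have p3 : (n + 2) ∣ Q2 (n + 2) := by
      apply dvd_Q2 (n + 2) _ (by omega) dvd_rfl
      intro p hp hpd
      rw [hn0] at hpd ⊢
      exact pow_dvd_pow_of_dvd (hp.dvd_of_dvd_pow hpd) 2
    have q1 := Nat.le_of_dvd (Q2_pos _) p1
    have q2 := Nat.le_of_dvd (Q2_pos _) p2
    have q3 := Nat.le_of_dvd (Q2_pos _) p3
    exact Nat.mul_le_mul (Nat.mul_le_mul q1 q2) q3

/-- The product of the powerful parts of the first three factors is at most the powerful part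
of the product. -/
lemma triple_le (n ℓ : ℕ) (hn : 1 ≤ n) (hℓ : 2 ≤ ℓ) :
    Q2 n * Q2 (n + 1) * Q2 (n + 2) ≤ Q2 (∏ i ∈ Finset.range (ℓ + 1), (n + i)) := by
  have hne : ∏ i ∈ Finset.range (ℓ + 1), (n + i) ≠ 0 :=
    Finset.prod_ne_zero_iff.2 (fun i _ => by omega)
  apply Nat.le_of_dvd (Q2_pos _)
  apply dvd_Q2 _ _ hne
  · have h1 : Q2 n * Q2 (n + 1) * Q2 (n + 2) ∣ n * (n + 1) * (n + 2) :=
      mul_dvd_mul (mul_dvd_mul (Q2_dvd _ (by omega)) (Q2_dvd _ (by omega))) (Q2_dvd _ (by omega))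
    have h2 : n * (n + 1) * (n + 2) = ∏ i ∈ Finset.range 3, (n + i) := by
      simp [Finset.prod_range_succ]
    rw [h2] at h1
    refine h1.trans (Finset.prod_dvd_prod_of_subset _ _ _ ?_)
    intro i hi
    rw [Finset.mem_range] at hi ⊢
    omega
  · intro p hp hpd
    rcases (Nat.Prime.dvd_mul hp).1 hpd with h | h
    · rcases (Nat.Prime.dvd_mul hp).1 h with h | h
      · exact Dvd.dvd.mul_right (Dvd.dvd.mul_right (Q2_powerful _ p hp h) _) _
      · exact Dvd.dvd.mul_right (Dvd.dvd.mul_left (Q2_powerful _ p hp h) _) _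
    · exact Dvd.dvd.mul_left (Q2_powerful _ p hp h) _

lemma log_pos : 0 < Real.log (3 + 2 * √2) := by
  apply Real.log_pos
  have := Real.sqrt_nonneg 2
  linarith

theorem main (N : ℕ) : ∃ n : ℕ, N ≤ n ∧ 1 ≤ n ∧
    ((n : ℝ) * Real.log n / (3 * Real.log (3 + 2 * √2))) ^ 2
      ≤ (Q2 n * Q2 (n + 1) * Q2 (n + 2) : ℕ) := by
  obtain ⟨n, t, hN, hn1, hlog, hle⟩ := exists_triple N
  refine ⟨n, hN, hn1, ?_⟩
  have hc : 0 < 3 * Real.log (3 + 2 * √2) := mul_pos (by norm_num) log_pos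
  have hnr : (1 : ℝ) ≤ n := by exact_mod_cast hn1
  have hl0 : 0 ≤ Real.log n := Real.log_nonneg hnr
  have h1 : Real.log n / (3 * Real.log (3 + 2 * √2)) ≤ t := (div_le_iff₀ hc).2 hlog
  have h0 : 0 ≤ Real.log n / (3 * Real.log (3 + 2 * √2)) := div_nonneg hl0 hc.le
  have h2 : ((n : ℝ) * Real.log n / (3 * Real.log (3 + 2 * √2))) ^ 2 ≤ (n : ℝ) ^ 2 * (t : ℝ) ^ 2 := by
    rw [mul_div_assoc, mul_pow]
    gcongr
  have h3 : ((t ^ 2 * (n + 1) * (n + 2) : ℕ) : ℝ) ≤ ((Q2 n * Q2 (n + 1) * Q2 (n + 2) : ℕ) : ℝ) := by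
    exact_mod_cast hle
  refine h2.trans (le_trans ?_ h3)
  push_cast
  have ht : (0 : ℝ) ≤ (t : ℝ) ^ 2 := by positivity
  have : (n : ℝ) ^ 2 ≤ (n + 1) * (n + 2) := by nlinarith
  nlinarith [mul_le_mul_of_nonneg_left this ht]

end Pool.Agent.R506.PowPart
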