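import Mathlib

/-!
# Product intersection sets: every set of positive integers containing 1 occurs

For `X` we build a commutative semigroup with zero: a family of letters `x_{h,n}` with `x_{h,n}^k` distinct
for `k < h`, `x_{h,n}^h = z_h` independent of `n`, and every other product of letters equal to zero.
The sets `A_q = {0} ∪ {x_{h,n} : n ≥ q, h ∉ X or h = 1}` decrease to `{0}`, and `z_h ∈ A_q^h` for all `q`
exactly when `h ∉ X`.
-/

set_option autoImplicit false

universe u v

namespace Pool.Agent.R506.ProdInt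

/-- The elements: zero, the elements `z h`, and the powers `e h n k = x_{h,n}^(k+1)`. -/
inductive El : Type u
  | zero : El
  | z (h : ℕ) : El
  | e (h n k : ℕ) : El

/-- The multiplication. -/
def El.mul' : El.{u} → El.{u} → El.{u}
  | .e h n k, .e h' n' k' =>
    if h = h' ∧ n = n' then
      (if k + k' + 2 < h then .e h n (k + k' + 1) else if k + k' + 2 = h then .z h else .zero)
    else .zero
  | _, _ => .zero

instance : Mul El.{u} := ⟨El.mul'⟩

lemma mul_e (h n k h' n' k' : ℕ) : (El.e h n k : El.{u}) * El.e h' n' k' =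
    if h = h' ∧ n = n' then
      (if k + k' + 2 < h then .e h n (k + k' + 1) else if k + k' + 2 = h then .z h else .zero)
    else .zero := rfl

lemma zero_mul' (a : El.{u}) : El.zero * a = El.zero := by cases a <;> rfl
lemma mul_zero' (a : El.{u}) : a * El.zero = El.zero := by cases a <;> rfl
lemma z_mul (h : ℕ) (a : El.{u}) : El.z h * a = El.zero := by cases a <;> rfl
lemma mul_z (h : ℕ) (a : El.{u}) : a * El.z h = El.zero := by cases a <;> rfl

instance : Semigroup El.{u} where
  mul_assoc := by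
    intro a b c
    rcases a with _ | h | ⟨h, n, k⟩
    · rw [zero_mul', zero_mul', zero_mul']
    · rw [z_mul, zero_mul', z_mul]
    rcases b with _ | h' | ⟨h', n', k'⟩
    · rw [zero_mul', mul_zero', zero_mul']
    · rw [z_mul, mul_z, zero_mul', mul_zero']
    rcases c with _ | h'' | ⟨h'', n'', k''⟩
    · rw [mul_zero', mul_zero', mul_zero']
    · rw [mul_z, mul_z, mul_zero']
    simp only [mul_e]
    by_cases h1 : h = h' ∧ n = n'
    · obtain ⟨rfl, rfl⟩ := h1
      by_cases h2 : h = h'' ∧ n = n''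
      · obtain ⟨rfl, rfl⟩ := h2
        simp only [and_self, if_true]
        split_ifs <;> simp only [mul_e, z_mul, mul_z, zero_mul', mul_zero', and_self, if_true] <;>
          (try split_ifs) <;> first | rfl | omega | (congr 1; omega)
      · rw [if_neg h2, mul_zero']
        split_ifs <;> simp only [mul_e, z_mul, zero_mul', if_neg h2]
    · rw [if_neg h1, zero_mul']
      split_ifs with h2 h3 h4
      · rw [mul_e, if_neg h1]
      · rw [mul_z]
      · rw [mul_zero']
      · rw [mul_zero']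

/-- `prodSet A h` is the set `A^h` of all products `a_1 a_2 ⋯ a_h` with `a_i ∈ A`, for `h ≥ 1`. -/
def prodSet {S : Type u} [Semigroup S] (A : Set S) : ℕ → Set S
  | 0 => ∅
  | 1 => A
  | n + 2 => {x | ∃ y ∈ prodSet A (n + 1), ∃ a ∈ A, x = y * a}

/-- The decreasing sequence. -/
def As (X : Set ℕ) (q : ℕ) : Set El.{u} :=
  {x | x = El.zero ∨ ∃ h n : ℕ, (h = 1 ∨ h ∉ X) ∧ q ≤ n ∧ x = El.e h n 0}

lemma prodSet_mono {S : Type u} [Semigroup S] {A B : Set S} (h : A ⊆ B) (n : ℕ) :
    prodSet A n ⊆ prodSet B n := by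
  match n with
  | 0 => exact fun x hx => hx
  | 1 => exact h
  | n + 2 =>
    rintro x ⟨y, hy, a, ha, rfl⟩
    exact ⟨y, prodSet_mono h (n + 1) hy, a, h ha, rfl⟩

lemma prodSet_sub {S : Type u} [Semigroup S] {Q : Type v} (A : Q → Set S) (n : ℕ) :
    prodSet (⋂ q, A q) n ⊆ ⋂ q, prodSet (A q) n :=
  Set.subset_iInter (fun q => prodSet_mono (Set.iInter_subset A q) n)

lemma zero_mem (X : Set ℕ) (q n : ℕ) : (El.zero : El.{u}) ∈ prodSet (As X q) (n + 1) := by
  induction n with
  | zero => exact Or.inl rfl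
  | succ n ih => exact ⟨El.zero, ih, El.zero, Or.inl rfl, rfl⟩

lemma iInter_As (X : Set ℕ) : (⋂ q, As.{u} X q) = {El.zero} := by
  ext x
  simp only [Set.mem_iInter, Set.mem_singleton_iff]
  constructor
  · intro hx
    rcases hx 0 with h | ⟨h, n, -, -, rfl⟩
    · exact h
    · rcases hx (n + 1) with h' | ⟨h', n', -, hn', he⟩
      · exact h'
      · injection he with h1 h2
        omega
  · rintro rfl q
    exact Or.inl rfl

lemma prodSet_zero (n : ℕ) : prodSet ({El.zero} : Set El.{u}) (n + 1) = {El.zero} := by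
  induction n with
  | zero => rfl
  | succ n ih =>
    ext x
    constructor
    · rintro ⟨y, hy, a, ha, rfl⟩
      rw [Set.mem_singleton_iff] at ha
      rw [ha, mul_zero']; rfl
    · intro hx
      rw [Set.mem_singleton_iff] at hx
      refine ⟨El.zero, by rw [ih]; rfl, El.zero, rfl, by rw [hx]; rfl⟩

lemma mem_prodSet (X : Set ℕ) (q k : ℕ) (y : El.{u}) (hy : y ∈ prodSet (As X q) (k + 1)) :
    y = El.zero ∨ (∃ h n : ℕ, (h = 1 ∨ h ∉ X) ∧ q ≤ n ∧ y = El.e h n k) ∨
      (k + 1 ∉ X ∧ y = El.z (k + 1)) := by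
  induction k generalizing y with
  | zero =>
    rcases hy with h | ⟨h, n, h1, h2, h3⟩
    · exact Or.inl h
    · exact Or.inr (Or.inl ⟨h, n, h1, h2, h3⟩)
  | succ k ih =>
    obtain ⟨w, hw, a, ha, rfl⟩ := hy
    rcases ha with rfl | ⟨h', n', h1', h2', rfl⟩
    · exact Or.inl (mul_zero' _)
    rcases ih w hw with rfl | ⟨h, n, h1, h2, rfl⟩ | ⟨-, rfl⟩
    · exact Or.inl (zero_mul' _)
    · rw [mul_e]
      split_ifs with c1 c2 c3
      · exact Or.inr (Or.inl ⟨h, n, h1, h2, by congr 1⟩)
      · right; right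
        have : h = k + 1 + 1 := by omega
        subst this
        refine ⟨?_, rfl⟩
        rcases h1 with h1 | h1
        · omega
        · exact h1
      · exact Or.inl rfl
      · exact Or.inl rfl
    · exact Or.inl (z_mul _ _)

lemma e_mem (X : Set ℕ) (q h : ℕ) (hX : h ∉ X) (k : ℕ) (hk : k + 1 < h) :
    (El.e h q k : El.{u}) ∈ prodSet (As X q) (k + 1) := by
  induction k with
  | zero => exact Or.inr ⟨h, q, Or.inr hX, le_rfl, rfl⟩
  | succ k ih =>
    refine ⟨El.e h q k, ih (by omega), El.e h q 0, Or.inr ⟨h, q, Or.inr hX, le_rfl, rfl⟩, ?_⟩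
    rw [mul_e, if_pos ⟨rfl, rfl⟩, if_pos (by omega)]

lemma z_mem (X : Set ℕ) (q h : ℕ) (hX : h ∉ X) (hh : 2 ≤ h) :
    (El.z h : El.{u}) ∈ prodSet (As X q) h := by
  obtain ⟨k, rfl⟩ : ∃ k, h = k + 2 := ⟨h - 2, by omega⟩
  refine ⟨El.e (k + 2) q k, e_mem X q (k + 2) hX k (by omega), El.e (k + 2) q 0,
    Or.inr ⟨_, q, Or.inr hX, le_rfl, rfl⟩, ?_⟩
  rw [mul_e, if_pos ⟨rfl, rfl⟩, if_neg (by omega), if_pos (by omega)]

lemma eq_iff (X : Set ℕ) (h1 : 1 ∈ X) (h : ℕ) (hh : 1 ≤ h) :
    prodSet (⋂ q, As.{u} X q) h = ⋂ q, prodSet (As.{u} X q) h ↔ h ∈ X := by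
  obtain ⟨k, rfl⟩ : ∃ k, h = k + 1 := ⟨h - 1, by omega⟩
  rw [iInter_As, prodSet_zero]
  constructor
  · intro heq
    by_contra hX
    have hk : 2 ≤ k + 1 := by
      rcases Nat.eq_zero_or_pos k with rfl | hk
      · exact absurd h1 hX
      · omega
    have hz : (El.z (k + 1) : El.{u}) ∈ ⋂ q, prodSet (As X q) (k + 1) :=
      Set.mem_iInter.2 (fun q => z_mem X q (k + 1) hX hk)
    rw [← heq, Set.mem_singleton_iff] at hz
    cases hz
  · intro hX
    ext x
    rw [Set.mem_singleton_iff, Set.mem_iInter]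
    constructor
    · rintro rfl q
      exact zero_mem X q k
    · intro hx
      rcases mem_prodSet X 0 k x (hx 0) with h | ⟨h, n, -, -, rfl⟩ | ⟨h, -⟩
      · exact h
      · rcases mem_prodSet X (n + 1) k _ (hx (n + 1)) with h' | ⟨h', n', -, hn', he⟩ | ⟨h', -⟩
        · exact h'
        · injection he with e1 e2 e3
          omega
        · exact absurd hX h'
      · exact absurd hX h

lemma antitone_As (X : Set ℕ) : Antitone (As.{u} X) := by
  intro p q hpq x hx
  rcases hx with h | ⟨h, n, h1, h2, h3⟩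
  · exact Or.inl h
  · exact Or.inr ⟨h, n, h1, hpq.trans h2, h3⟩

lemma As_ne (X : Set ℕ) (q : ℕ) : As.{u} X (q + 1) ≠ As X q := by
  intro h
  have h1 : (El.e 1 q 0 : El.{u}) ∈ As X q := Or.inr ⟨1, q, Or.inl rfl, le_rfl, rfl⟩
  rw [← h] at h1
  rcases h1 with h' | ⟨h', n', -, hn', he⟩
  · cases h'
  · injection he with e1 e2
    omega

lemma strictAnti_As (X : Set ℕ) : StrictAnti (As.{u} X) :=
  strictAnti_nat_of_succ_lt (fun q => lt_of_le_of_ne (antitone_As X (Nat.le_succ q)) (As_ne X q))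

end Pool.Agent.R506.ProdInt
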