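import Mathlib

/-!
Regular sequences of type B and type A, and the finite core of the counterexample
`(k₁, k₂) = (51, 61)`.
-/

namespace Pool.Agent.R506.RegSeq

/-- Sequences obtained from `(1,1)` by repeatedly attaching, at the left or at the right end, a
new term equal to the sum of a (nonempty) block of consecutive terms. -/
inductive GrownB : List ℕ → Prop
  | start : GrownB [1, 1]
  | left {d s : List ℕ} : GrownB d → s ≠ [] → s <:+: d → GrownB (s.sum :: d)
  | right {d s : List ℕ} : GrownB d → s ≠ [] → s <:+: d → GrownB (d ++ [s.sum])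

/-- The same, but the block has to lie immediately next to the new term. -/
inductive GrownA : List ℕ → Prop
  | start : GrownA [1, 1]
  | left {d s : List ℕ} : GrownA d → s ≠ [] → s <+: d → GrownA (s.sum :: d)
  | right {d s : List ℕ} : GrownA d → s ≠ [] → s <:+ d → GrownA (d ++ [s.sum])

theorem GrownA.toB {d : List ℕ} (h : GrownA d) : GrownB d := by
  induction h with
  | start => exact .start
  | left _ hs hp ih => exact .left ih hs hp.isInfix
  | right _ hs hp ih => exact .right ih hs hp.isInfix

theorem infix_sum_le {s d : List ℕ} (h : s <:+: d) : s.sum ≤ d.sum := by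
  obtain ⟨a, b, rfl⟩ := h
  simp only [List.sum_append]
  omega

theorem GrownB.two_le {d : List ℕ} (h : GrownB d) : 2 ≤ d.length := by
  induction h with
  | start => simp
  | left _ _ _ ih => simp only [List.length_cons]; omega
  | right _ _ _ ih => simp only [List.length_append, List.length_singleton]; omega

theorem pow_aux {n : ℕ} (h : 2 ≤ n) : 2 ^ n = 2 * 2 ^ (n - 1) := by
  obtain ⟨m, rfl⟩ := Nat.exists_eq_add_of_le h
  have : 2 + m - 1 = m + 1 := by omega
  rw [this, show 2 + m = (m + 1) + 1 by omega, pow_succ, mul_comm]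

theorem GrownB.sum_le {d : List ℕ} (h : GrownB d) : d.sum ≤ 2 ^ (d.length - 1) := by
  induction h with
  | start => simp
  | left hd _ hp ih =>
    have h1 := infix_sum_le hp
    have h2 := hd.two_le
    simp only [List.sum_cons, List.length_cons, Nat.add_sub_cancel]
    rw [pow_aux h2]; omega
  | right hd _ hp ih =>
    have h1 := infix_sum_le hp
    have h2 := hd.two_le
    simp only [List.sum_append, List.sum_singleton, List.length_append, List.length_singleton,
      Nat.add_sub_cancel]
    rw [pow_aux h2]; omega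

theorem GrownB.mem_le {d : List ℕ} (h : GrownB d) : ∀ x ∈ d, x ≤ 2 ^ (d.length - 2) := by
  induction h with
  | start => simp
  | @left d s hd _ hp ih =>
    have h1 := infix_sum_le hp
    have h2 := hd.two_le
    have h3 := hd.sum_le
    intro x hx
    have e : (s.sum :: d).length - 2 = d.length - 1 := by simp only [List.length_cons]; omega
    rw [e]
    rcases List.mem_cons.1 hx with rfl | hx
    · omega
    · exact (ih x hx).trans (Nat.pow_le_pow_right (by norm_num) (by omega))
  | @right d s hd _ hp ih =>
    have h1 := infix_sum_le hp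
    have h2 := hd.two_le
    have h3 := hd.sum_le
    intro x hx
    have e : (d ++ [s.sum]).length - 2 = d.length - 1 := by
      simp only [List.length_append, List.length_singleton]; omega
    rw [e]
    rcases List.mem_append.1 hx with hx | hx
    · exact (ih x hx).trans (Nat.pow_le_pow_right (by norm_num) (by omega))
    · rw [List.mem_singleton.1 hx]; omega

/-- sums of nonempty prefixes (computable) -/
def preSums : List ℕ → List ℕ
  | [] => []
  | a :: l => a :: (preSums l).map (a + ·)

/-- sums of nonempty blocks (computable) -/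
def blockSums : List ℕ → List ℕ
  | [] => []
  | a :: l => preSums (a :: l) ++ blockSums l

theorem mem_preSums {s : List ℕ} (d : List ℕ) (hs : s ≠ []) (h : s <+: d) : s.sum ∈ preSums d := by
  induction d generalizing s with
  | nil => exact absurd (List.prefix_nil.1 h) hs
  | cons a l ih =>
    cases s with
    | nil => exact absurd rfl hs
    | cons b t =>
      obtain ⟨rfl, ht⟩ := List.cons_prefix_cons.1 h
      by_cases htn : t = []
      · subst htn; simp [preSums]
      · have := ih htn ht
        simp only [preSums, List.sum_cons, List.mem_cons, List.mem_map]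
        right
        exact ⟨_, this, rfl⟩

theorem mem_blockSums {s : List ℕ} (d : List ℕ) (hs : s ≠ []) (h : s <:+: d) :
    s.sum ∈ blockSums d := by
  induction d with
  | nil => exact absurd (List.infix_nil.1 h) hs
  | cons a l ih =>
    rcases List.infix_cons_iff.1 h with h | h
    · exact List.mem_append_left _ (mem_preSums _ hs h)
    · exact List.mem_append_right _ (ih h)

/-- candidates after one more step, with total at least `t` -/
def step (t : ℕ) (d : List ℕ) : List (List ℕ) :=
  ((blockSums d).filter (fun s => decide (t ≤ s + d.sum))).flatMap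
    (fun s => [s :: d, d ++ [s]])

/-- all grown sequences with `n + 2` terms which satisfy the lower bounds on totals -/
def gen (t : ℕ → ℕ) : ℕ → List (List ℕ)
  | 0 => [[1, 1]]
  | n + 1 => (gen t n).flatMap (step (t (n + 1)))

theorem GrownB.mem_gen {t : ℕ → ℕ} (ht : ∀ n, 2 * t n ≤ t (n + 1) + 1) {d : List ℕ}
    (h : GrownB d) : t (d.length - 2) ≤ d.sum → d ∈ gen t (d.length - 2) := by
  induction h with
  | start => intro _; simp [gen]
  | @left d s hd hs hp ih =>
    have h1 := infix_sum_le hp
    have h2 := hd.two_le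
    intro hT
    have e : (s.sum :: d).length - 2 = (d.length - 2) + 1 := by
      simp only [List.length_cons]; omega
    have hS : (s.sum :: d).sum = s.sum + d.sum := by simp
    rw [e] at hT ⊢
    rw [hS] at hT
    have h4 := ht (d.length - 2)
    have h5 : t (d.length - 2) ≤ d.sum := by omega
    refine List.mem_flatMap.2 ⟨d, ih h5, ?_⟩
    refine List.mem_flatMap.2 ⟨s.sum, ?_, by simp⟩
    refine List.mem_filter.2 ⟨mem_blockSums _ hs hp, ?_⟩
    simpa using hT
  | @right d s hd hs hp ih =>
    have h1 := infix_sum_le hp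
    have h2 := hd.two_le
    intro hT
    have e : (d ++ [s.sum]).length - 2 = (d.length - 2) + 1 := by
      simp only [List.length_append, List.length_singleton]; omega
    have hS : (d ++ [s.sum]).sum = s.sum + d.sum := by simp [add_comm]
    rw [e] at hT ⊢
    rw [hS] at hT
    have h4 := ht (d.length - 2)
    have h5 : t (d.length - 2) ≤ d.sum := by omega
    refine List.mem_flatMap.2 ⟨d, ih h5, ?_⟩
    refine List.mem_flatMap.2 ⟨s.sum, ?_, by simp⟩
    refine List.mem_filter.2 ⟨mem_blockSums _ hs hp, ?_⟩
    simpa using hT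

/-- the thresholds -/
def thr : ℕ → ℕ
  | 0 => 2
  | 1 => 4
  | 2 => 7
  | 3 => 13
  | 4 => 26
  | n + 5 => 51 * 2 ^ n

theorem thr_step (n : ℕ) : 2 * thr n ≤ thr (n + 1) + 1 := by
  match n with
  | 0 => simp [thr]
  | 1 => simp [thr]
  | 2 => simp [thr]
  | 3 => simp [thr]
  | 4 => simp [thr]
  | n + 5 =>
    show 2 * (51 * 2 ^ n) ≤ 51 * 2 ^ (n + 1) + 1
    rw [pow_succ]; omega

/-- the test on seven-term sequences -/
def bad (v : List ℕ) : Bool :=
  (blockSums v).contains 51 &&
    ((blockSums v).contains 61 || (preSums v).contains 10 || (preSums v.reverse).contains 10)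

theorem no_bad : ((gen thr 5).any bad) = false := by
  decide +kernel

/-- Key finite statement. -/
theorem key {v : List ℕ} (hv : GrownB v) (hl : v.length = 7)
    (h51 : ∃ s, s ≠ [] ∧ s <:+: v ∧ s.sum = 51)
    (h : (∃ s, s ≠ [] ∧ s <:+: v ∧ s.sum = 61) ∨ (∃ s, s <+: v ∧ s.sum = 10) ∨
      (∃ s, s <:+ v ∧ s.sum = 10)) : False := by
  obtain ⟨s, hs, hp, h51⟩ := h51
  have h1 := hv.mem_gen thr_step
  rw [hl] at h1
  have h2 : thr (7 - 2) ≤ v.sum := by
    have := infix_sum_le hp
    show 51 * 2 ^ 0 ≤ v.sum
    omega
  have h3 := h1 h2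
  have h4 := no_bad
  rw [List.any_eq_false] at h4
  apply h4 v h3
  have m51 : 51 ∈ blockSums v := h51 ▸ mem_blockSums _ hs hp
  unfold bad
  simp only [Bool.and_eq_true, Bool.or_eq_true, List.contains_iff_mem]
  refine ⟨m51, ?_⟩
  rcases h with ⟨r, hr, hrp, hr1⟩ | ⟨r, hrp, hr1⟩ | ⟨r, hrp, hr1⟩
  · exact Or.inl (Or.inl (hr1 ▸ mem_blockSums _ hr hrp))
  · have hr : r ≠ [] := by rintro rfl; simp at hr1
    exact Or.inl (Or.inr (hr1 ▸ mem_preSums _ hr hrp))
  · have hr : r.reverse ≠ [] := by
      intro h0
      rw [List.reverse_eq_nil_iff] at h0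
      subst h0; simp at hr1
    have h5 : r.reverse.sum = 10 := by rw [List.sum_reverse]; exact hr1
    exact Or.inr (h5 ▸ mem_preSums _ hr (List.reverse_prefix.2 hrp))

/-- no grown sequence with at most eight terms has both -/
theorem eight {d : List ℕ} (hd : GrownB d) (hl : d.length ≤ 8) (h51 : 51 ∈ d) (h61 : 61 ∈ d) :
    False := by
  have small : ∀ {e : List ℕ}, GrownB e → e.length ≤ 7 → ∀ x ∈ e, x ≤ 32 := by
    intro e he hle x hx
    have := he.mem_le x hx
    have h2 : 2 ^ (e.length - 2) ≤ 2 ^ 5 := Nat.pow_le_pow_right (by norm_num) (by omega)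
    omega
  cases hd with
  | start => simp at h51
  | @left e s he hs hp =>
    have hle : e.length ≤ 7 := by simp only [List.length_cons] at hl; omega
    have n1 : (51 : ℕ) ∉ e := fun h => by have := small he hle _ h; omega
    have n2 : (61 : ℕ) ∉ e := fun h => by have := small he hle _ h; omega
    have e1 := (List.mem_cons.1 h51).resolve_right n1
    have e2 := (List.mem_cons.1 h61).resolve_right n2
    omega
  | @right e s he hs hp =>
    have hle : e.length ≤ 7 := by
      simp only [List.length_append, List.length_singleton] at hl; omega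
    have n1 : (51 : ℕ) ∉ e := fun h => by have := small he hle _ h; omega
    have n2 : (61 : ℕ) ∉ e := fun h => by have := small he hle _ h; omega
    have e1 := List.mem_singleton.1 ((List.mem_append.1 h51).resolve_left n1)
    have e2 := List.mem_singleton.1 ((List.mem_append.1 h61).resolve_left n2)
    omega

/-- Analysis of the last two steps: `x` is one of the two numbers, present in the eight-term
sequence `e`, and `y`, the other one, is a block sum of `e`. -/
theorem last_two {e s : List ℕ} (he : GrownB e) (hle : e.length = 8) (hs : s ≠ [])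
    (hp : s <:+: e) (h : (s.sum = 61 ∧ 51 ∈ e) ∨ (s.sum = 51 ∧ 61 ∈ e)) : False := by
  have small : ∀ {e : List ℕ}, GrownB e → e.length ≤ 7 → ∀ x ∈ e, x ≤ 32 := by
    intro e he hle x hx
    have := he.mem_le x hx
    have h2 : 2 ^ (e.length - 2) ≤ 2 ^ 5 := Nat.pow_le_pow_right (by norm_num) (by omega)
    omega
  cases he with
  | start => simp at hle
  | @left f r hf hr hrp =>
    have hlf : f.length = 7 := by simp only [List.length_cons] at hle; omega
    have n1 : (51 : ℕ) ∉ f := fun h => by have := small hf hlf.le _ h; omega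
    have n2 : (61 : ℕ) ∉ f := fun h => by have := small hf hlf.le _ h; omega
    rcases h with ⟨h61, h51⟩ | ⟨h51, h61⟩
    · have e1 := (List.mem_cons.1 h51).resolve_right n1
      rcases List.infix_cons_iff.1 hp with hq | hq
      · cases s with
        | nil => exact hs rfl
        | cons b t =>
          obtain ⟨rfl, ht⟩ := List.cons_prefix_cons.1 hq
          rw [List.sum_cons] at h61
          exact key hf hlf ⟨r, hr, hrp, e1.symm⟩ (Or.inr (Or.inl ⟨t, ht, by omega⟩))
      · exact key hf hlf ⟨r, hr, hrp, e1.symm⟩ (Or.inl ⟨s, hs, hq, h61⟩)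
    · have e1 := (List.mem_cons.1 h61).resolve_right n2
      rcases List.infix_cons_iff.1 hp with hq | hq
      · cases s with
        | nil => exact hs rfl
        | cons b t =>
          obtain ⟨rfl, ht⟩ := List.cons_prefix_cons.1 hq
          rw [List.sum_cons] at h51
          omega
      · exact key hf hlf ⟨s, hs, hq, h51⟩ (Or.inl ⟨r, hr, hrp, e1.symm⟩)
  | @right f r hf hr hrp =>
    have hlf : f.length = 7 := by
      simp only [List.length_append, List.length_singleton] at hle; omega
    have n1 : (51 : ℕ) ∉ f := fun h => by have := small hf hlf.le _ h; omega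
    have n2 : (61 : ℕ) ∉ f := fun h => by have := small hf hlf.le _ h; omega
    have split : s <:+: f ∨ ∃ t, t <:+ f ∧ s = t ++ [r.sum] := by
      rcases List.infix_concat_iff.1 hp with hq | hq
      · right
        rcases List.suffix_concat_iff.1 hq with h0 | ⟨t, rfl, ht⟩
        · exact absurd h0 hs
        · exact ⟨t, ht, rfl⟩
      · exact Or.inl hq
    rcases h with ⟨h61, h51⟩ | ⟨h51, h61⟩
    · have e1 := List.mem_singleton.1 ((List.mem_append.1 h51).resolve_left n1)
      rcases split with hq | ⟨t, ht, rfl⟩
      · exact key hf hlf ⟨r, hr, hrp, e1.symm⟩ (Or.inl ⟨s, hs, hq, h61⟩)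
      · rw [List.sum_append, List.sum_singleton] at h61
        exact key hf hlf ⟨r, hr, hrp, e1.symm⟩ (Or.inr (Or.inr ⟨t, ht, by omega⟩))
    · have e1 := List.mem_singleton.1 ((List.mem_append.1 h61).resolve_left n2)
      rcases split with hq | ⟨t, ht, rfl⟩
      · exact key hf hlf ⟨s, hs, hq, h51⟩ (Or.inl ⟨r, hr, hrp, e1.symm⟩)
      · rw [List.sum_append, List.sum_singleton] at h51
        omega

/-- no grown sequence with at most nine terms has both -/
theorem nine {d : List ℕ} (hd : GrownB d) (hl : d.length ≤ 9) (h51 : 51 ∈ d) (h61 : 61 ∈ d) :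
    False := by
  rcases Nat.lt_or_ge d.length 9 with h8 | h9
  · exact eight hd (by omega) h51 h61
  have hl9 : d.length = 9 := le_antisymm hl h9
  cases hd with
  | start => simp at h51
  | @left e s he hs hp =>
    have hle : e.length = 8 := by simp only [List.length_cons] at hl9; omega
    rcases List.mem_cons.1 h51 with a | a
    · rcases List.mem_cons.1 h61 with b | b
      · omega
      · exact last_two he hle hs hp (Or.inr ⟨a.symm, b⟩)
    · rcases List.mem_cons.1 h61 with b | b
      · exact last_two he hle hs hp (Or.inl ⟨b.symm, a⟩)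
      · exact eight he hle.le a b
  | @right e s he hs hp =>
    have hle : e.length = 8 := by
      simp only [List.length_append, List.length_singleton] at hl9; omega
    rcases List.mem_append.1 h51 with a | a
    · rcases List.mem_append.1 h61 with b | b
      · exact eight he hle.le a b
      · exact last_two he hle hs hp (Or.inl ⟨(List.mem_singleton.1 b).symm, a⟩)
    · rcases List.mem_append.1 h61 with b | b
      · exact last_two he hle hs hp (Or.inr ⟨(List.mem_singleton.1 a).symm, b⟩)
      · have := List.mem_singleton.1 a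
        have := List.mem_singleton.1 b
        omega

/-- no grown sequence with at most seven terms has `61` -/
theorem seven {d : List ℕ} (hd : GrownB d) (hl : d.length ≤ 7) (h61 : 61 ∈ d) : False := by
  have := hd.mem_le _ h61
  have h2 : 2 ^ (d.length - 2) ≤ 2 ^ 5 := Nat.pow_le_pow_right (by norm_num) (by omega)
  omega

/-- an eight-term type A sequence with `61` -/
theorem ex8 : GrownA [1, 1, 2, 4, 8, 16, 30, 61] := by
  have h3 : GrownA [1, 1, 2] := GrownA.right (s := [1, 1]) .start (by simp) ⟨[], rfl⟩
  have h4 : GrownA [1, 1, 2, 4] := GrownA.right (s := [1, 1, 2]) h3 (by simp) ⟨[], rfl⟩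
  have h5 : GrownA [1, 1, 2, 4, 8] := GrownA.right (s := [1, 1, 2, 4]) h4 (by simp) ⟨[], rfl⟩
  have h6 : GrownA [1, 1, 2, 4, 8, 16] :=
    GrownA.right (s := [1, 1, 2, 4, 8]) h5 (by simp) ⟨[], rfl⟩
  have h7 : GrownA [1, 1, 2, 4, 8, 16, 30] :=
    GrownA.right (s := [2, 4, 8, 16]) h6 (by simp) ⟨[1, 1], rfl⟩
  exact GrownA.right (s := [1, 2, 4, 8, 16, 30]) h7 (by simp) ⟨[1], rfl⟩

/-- a ten-term type A sequence with `51` and `61` -/
theorem ex10 : GrownA [51, 29, 14, 8, 4, 2, 1, 1, 59, 61] := by
  have h3 : GrownA [2, 1, 1] := GrownA.left (s := [1, 1]) .start (by simp) ⟨[], rfl⟩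
  have h4 : GrownA [4, 2, 1, 1] := GrownA.left (s := [2, 1, 1]) h3 (by simp) ⟨[], rfl⟩
  have h5 : GrownA [8, 4, 2, 1, 1] := GrownA.left (s := [4, 2, 1, 1]) h4 (by simp) ⟨[], rfl⟩
  have h6 : GrownA [14, 8, 4, 2, 1, 1] := GrownA.left (s := [8, 4, 2]) h5 (by simp) ⟨[1, 1], rfl⟩
  have h7 : GrownA [29, 14, 8, 4, 2, 1, 1] :=
    GrownA.left (s := [14, 8, 4, 2, 1]) h6 (by simp) ⟨[1], rfl⟩
  have h8 : GrownA [51, 29, 14, 8, 4, 2, 1, 1] :=
    GrownA.left (s := [29, 14, 8]) h7 (by simp) ⟨[4, 2, 1, 1], rfl⟩
  have h9 : GrownA [51, 29, 14, 8, 4, 2, 1, 1, 59] :=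
    GrownA.right (s := [29, 14, 8, 4, 2, 1, 1]) h8 (by simp) ⟨[51], rfl⟩
  exact GrownA.right (s := [1, 1, 59]) h9 (by simp) ⟨[51, 29, 14, 8, 4, 2], rfl⟩

end Pool.Agent.R506.RegSeq
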