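import Mathlib

/-!
# A finite set of positive integers with more sums than differences and more products than ratios

`T` is Conway's set. `U q n` is the set of the integers `x_0 + x_1 q + ⋯ + x_{n-1} q^(n-1)` with all digits in
`T`. It has `26 ^ n` sums and at most `25 ^ n` differences. The set is
`A = {q ^ s (κ + q u) : s ∈ S, u ∈ U q D}` where `S = U 29 18`, `κ` is large and `κ ≡ 1 mod q`.
-/

set_option autoImplicit false

open Finset

namespace Pool.Agent.R506.SumProd

/-- the sumset -/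
def sums (A : Finset ℕ) : Finset ℕ := (A ×ˢ A).image fun p => p.1 + p.2
/-- the difference set -/
def diffs (A : Finset ℕ) : Finset ℤ := (A ×ˢ A).image fun p => (p.1 : ℤ) - p.2
/-- the product set -/
def prods (A : Finset ℕ) : Finset ℕ := (A ×ˢ A).image fun p => p.1 * p.2
/-- the ratio set -/
def ratios (A : Finset ℕ) : Finset ℚ := (A ×ˢ A).image fun p => (p.1 : ℚ) / p.2

/-- Conway's set -/
def T : Finset ℕ := {0, 2, 3, 4, 7, 11, 12, 14}

lemma T_card : T.card = 8 := by decide
lemma T_sums : (sums T).card = 26 := by decide +kernel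
lemma T_diffs : (diffs T).card = 25 := by decide +kernel
lemma T_sums_le : ∀ x ∈ sums T, x ≤ 28 := by decide +kernel

/-- integers with `n` digits, all in `T`, to the base `q` -/
def U (q : ℕ) : ℕ → Finset ℕ
  | 0 => {0}
  | n + 1 => (T ×ˢ U q n).image fun p => p.1 + q * p.2

lemma mem_U_succ (q n x : ℕ) : x ∈ U q (n + 1) ↔ ∃ t ∈ T, ∃ u ∈ U q n, x = t + q * u := by
  show x ∈ (T ×ˢ U q n).image (fun p : ℕ × ℕ => p.1 + q * p.2) ↔ _
  rw [mem_image]
  constructor
  · rintro ⟨⟨t, u⟩, h, rfl⟩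
    rw [mem_product] at h
    exact ⟨t, h.1, u, h.2, rfl⟩
  · rintro ⟨t, ht, u, hu, rfl⟩
    exact ⟨(t, u), mem_product.2 ⟨ht, hu⟩, rfl⟩

lemma U_card_le (q n : ℕ) : (U q n).card ≤ 8 ^ n := by
  induction n with
  | zero => simp [U]
  | succ n ih =>
    have h1 : (U q (n + 1)).card ≤ (T ×ˢ U q n).card :=
      card_image_le (s := T ×ˢ U q n) (f := fun p : ℕ × ℕ => p.1 + q * p.2)
    rw [card_product, T_card] at h1
    calc (U q (n + 1)).card ≤ 8 * (U q n).card := h1
      _ ≤ 8 * 8 ^ n := by gcongr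
      _ = 8 ^ (n + 1) := by ring

lemma zero_mem_U (q n : ℕ) : 0 ∈ U q n := by
  induction n with
  | zero => simp [U]
  | succ n ih => exact (mem_U_succ q n 0).2 ⟨0, by decide, 0, ih, by simp⟩

lemma U_add (q a b x : ℕ) : x ∈ U q (a + b) ↔ ∃ u ∈ U q a, ∃ v ∈ U q b, x = u + q ^ a * v := by
  induction a generalizing x with
  | zero =>
    rw [zero_add]
    constructor
    · intro h
      exact ⟨0, by simp [U], x, h, by simp⟩
    · rintro ⟨u, hu, v, hv, rfl⟩
      simp only [U, mem_singleton] at hu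
      subst hu
      simpa using hv
  | succ a ih =>
    rw [show a + 1 + b = (a + b) + 1 by ring, mem_U_succ]
    constructor
    · rintro ⟨t, ht, w, hw, rfl⟩
      obtain ⟨u, hu, v, hv, rfl⟩ := (ih w).1 hw
      exact ⟨t + q * u, (mem_U_succ q a _).2 ⟨t, ht, u, hu, rfl⟩, v, hv, by ring⟩
    · rintro ⟨u', hu', v, hv, rfl⟩
      obtain ⟨t, ht, u, hu, rfl⟩ := (mem_U_succ q a u').1 hu'
      exact ⟨t, ht, u + q ^ a * v, (ih _).2 ⟨u, hu, v, hv, rfl⟩, by ring⟩

lemma sums_U (q n : ℕ) (hq : 29 ≤ q) : 26 ^ n ≤ (sums (U q n)).card := by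
  induction n with
  | zero => simp [U, sums]
  | succ n ih =>
    have hinj : Set.InjOn (fun p : ℕ × ℕ => p.1 + q * p.2)
        ((sums T ×ˢ sums (U q n) : Finset (ℕ × ℕ)) : Set (ℕ × ℕ)) := by
      rintro ⟨a, b⟩ hab ⟨c, d⟩ hcd h
      rw [mem_coe, mem_product] at hab hcd
      have ha := T_sums_le a hab.1
      have hc := T_sums_le c hcd.1
      simp only at h
      have h1 : a = c := by
        have e1 : (a + q * b) % q = a := by
          rw [Nat.add_mul_mod_self_left, Nat.mod_eq_of_lt (by omega)]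
        have e2 : (c + q * d) % q = c := by
          rw [Nat.add_mul_mod_self_left, Nat.mod_eq_of_lt (by omega)]
        rw [← e1, h, e2]
      subst h1
      have h2 : q * b = q * d := by omega
      have h3 : b = d := Nat.eq_of_mul_eq_mul_left (by omega) h2
      rw [h3]
    have hsub : (sums T ×ˢ sums (U q n)).image (fun p : ℕ × ℕ => p.1 + q * p.2) ⊆
        sums (U q (n + 1)) := by
      intro x hx
      rw [mem_image] at hx
      obtain ⟨⟨a, b⟩, hab, rfl⟩ := hx
      rw [mem_product] at hab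
      obtain ⟨ha, hb⟩ := hab
      unfold sums at ha hb
      rw [mem_image] at ha hb
      obtain ⟨⟨t, t'⟩, ht, rfl⟩ := ha
      obtain ⟨⟨u, u'⟩, hu, rfl⟩ := hb
      rw [mem_product] at ht hu
      unfold sums
      rw [mem_image]
      refine ⟨(t + q * u, t' + q * u'), mem_product.2 ⟨(mem_U_succ _ _ _).2 ⟨t, ht.1, u, hu.1, rfl⟩,
        (mem_U_succ _ _ _).2 ⟨t', ht.2, u', hu.2, rfl⟩⟩, ?_⟩
      simp only
      ring
    have h1 := card_le_card hsub
    rw [card_image_of_injOn hinj, card_product, T_sums] at h1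
    calc 26 ^ (n + 1) = 26 * 26 ^ n := by ring
      _ ≤ 26 * (sums (U q n)).card := by gcongr
      _ ≤ _ := h1

lemma diffs_U (q n : ℕ) : (diffs (U q n)).card ≤ 25 ^ n := by
  induction n with
  | zero => simp [U, diffs]
  | succ n ih =>
    have hsub : diffs (U q (n + 1)) ⊆
        (diffs T ×ˢ diffs (U q n)).image (fun p : ℤ × ℤ => p.1 + q * p.2) := by
      intro x hx
      unfold diffs at hx
      rw [mem_image] at hx
      obtain ⟨⟨a, b⟩, hab, rfl⟩ := hx
      rw [mem_product] at hab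
      obtain ⟨t, ht, u, hu, h1⟩ := (mem_U_succ _ _ _).1 hab.1
      obtain ⟨t', ht', u', hu', h2⟩ := (mem_U_succ _ _ _).1 hab.2
      simp only at h1 h2
      subst h1; subst h2
      rw [mem_image]
      refine ⟨((t : ℤ) - t', (u : ℤ) - u'), mem_product.2 ⟨?_, ?_⟩, ?_⟩
      · exact mem_image.2 ⟨(t, t'), mem_product.2 ⟨ht, ht'⟩, rfl⟩
      · exact mem_image.2 ⟨(u, u'), mem_product.2 ⟨hu, hu'⟩, rfl⟩
      · push_cast; ring
    have h1 := card_le_card hsub
    have h2 := card_image_le (s := diffs T ×ˢ diffs (U q n)) (f := fun p : ℤ × ℤ => p.1 + q * p.2)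
    rw [card_product, T_diffs] at h2
    calc (diffs (U q (n + 1))).card ≤ 25 * (diffs (U q n)).card := h1.trans h2
      _ ≤ 25 * 25 ^ n := by gcongr
      _ = 25 ^ (n + 1) := by ring

/-- shifted differences `u - q ^ j v` -/
def E (q D j : ℕ) : Finset ℤ := (U q D ×ˢ U q D).image fun p => (p.1 : ℤ) - q ^ j * p.2

lemma E_card (q D j : ℕ) (hj : j ≤ D) : (E q D j).card ≤ 64 ^ j * 25 ^ D := by
  obtain ⟨e, rfl⟩ : ∃ e, D = j + e := ⟨D - j, by omega⟩
  have hsub : E q (j + e) j ⊆ (U q j ×ˢ (diffs (U q e) ×ˢ U q j)).image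
      (fun p : ℕ × (ℤ × ℕ) => (p.1 : ℤ) + q ^ j * p.2.1 - q ^ (j + e) * p.2.2) := by
    intro x hx
    unfold E at hx
    rw [mem_image] at hx
    obtain ⟨⟨a, b⟩, hab, rfl⟩ := hx
    rw [mem_product] at hab
    obtain ⟨u1, hu1, u2, hu2, h1⟩ := (U_add q j e a).1 hab.1
    have hb : b ∈ U q (e + j) := by rw [add_comm]; exact hab.2
    obtain ⟨v1, hv1, v2, hv2, h2⟩ := (U_add q e j b).1 hb
    simp only
    subst h1; subst h2
    rw [mem_image]
    refine ⟨(u1, ((u2 : ℤ) - v1, v2)), mem_product.2 ⟨hu1, mem_product.2 ⟨?_, hv2⟩⟩, ?_⟩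
    · exact mem_image.2 ⟨(u2, v1), mem_product.2 ⟨hu2, hv1⟩, rfl⟩
    · push_cast; ring
  have h1 := card_le_card hsub
  have h2 := card_image_le (s := U q j ×ˢ (diffs (U q e) ×ˢ U q j))
    (f := fun p : ℕ × (ℤ × ℕ) => (p.1 : ℤ) + q ^ j * p.2.1 - q ^ (j + e) * p.2.2)
  rw [card_product, card_product] at h2
  calc (E q (j + e) j).card ≤ (U q j).card * ((diffs (U q e)).card * (U q j).card) := h1.trans h2
    _ ≤ 8 ^ j * (25 ^ e * 8 ^ j) := by
        gcongr
        · exact U_card_le q j
        · exact diffs_U q e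
        · exact U_card_le q j
    _ = 64 ^ j * 25 ^ e := by
        rw [show (64 : ℕ) = 8 * 8 by norm_num, mul_pow]; ring
    _ ≤ 64 ^ j * 25 ^ (j + e) := by
        gcongr
        · norm_num
        · omega

/-- products of elements near `κ` are distinct -/
lemma prods_card (B : Finset ℕ) (κ M : ℕ) (hκ : M * M < κ) (hB : ∀ b ∈ B, ∃ v, v ≤ M ∧ b = κ + v) :
    B.card * B.card ≤ 2 * (prods B).card := by
  have key : ∀ a ∈ B, ∀ b ∈ B, ∀ c ∈ B, ∀ d ∈ B, a * b = c * d → (a = c ∧ b = d) ∨ (a = d ∧ b = c) := by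
    intro a ha b hb c hc d hd h
    obtain ⟨v1, h1, rfl⟩ := hB a ha
    obtain ⟨v2, h2, rfl⟩ := hB b hb
    obtain ⟨v3, h3, rfl⟩ := hB c hc
    obtain ⟨v4, h4, rfl⟩ := hB d hd
    have e1 : κ * (v1 + v2) + v1 * v2 = κ * (v3 + v4) + v3 * v4 := by nlinarith
    have l1 : v1 * v2 < κ := lt_of_le_of_lt (Nat.mul_le_mul h1 h2) hκ
    have l2 : v3 * v4 < κ := lt_of_le_of_lt (Nat.mul_le_mul h3 h4) hκ
    have e2 : v1 * v2 = v3 * v4 := by
      have := congrArg (· % κ) e1
      simp only [Nat.mul_add_mod, Nat.mod_eq_of_lt l1, Nat.mod_eq_of_lt l2] at this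
      exact this
    have e3 : v1 + v2 = v3 + v4 := by
      have h5 : κ * (v1 + v2) = κ * (v3 + v4) := by omega
      exact Nat.eq_of_mul_eq_mul_left (by omega) h5
    have e4 : ((v1 : ℤ) - v3) * ((v1 : ℤ) - v4) = 0 := by
      have e2' : (v1 : ℤ) * v2 = v3 * v4 := by exact_mod_cast e2
      have e3' : (v1 : ℤ) + v2 = v3 + v4 := by exact_mod_cast e3
      linear_combination (v1 : ℤ) * e3' - e2'
    rcases mul_eq_zero.1 e4 with h5 | h5
    · left; constructor <;> omega
    · right; constructor <;> omega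
  have h1 : (B ×ˢ B).card ≤ 2 * ((B ×ˢ B).image (fun p : ℕ × ℕ => p.1 * p.2)).card := by
    apply card_le_mul_card_image
    intro y hy
    rw [mem_image] at hy
    obtain ⟨⟨a, b⟩, hab, rfl⟩ := hy
    rw [mem_product] at hab
    have hsub : (B ×ˢ B).filter (fun p : ℕ × ℕ => p.1 * p.2 = (a, b).1 * (a, b).2) ⊆
        {(a, b), (b, a)} := by
      rintro ⟨c, d⟩ hcd
      rw [mem_filter, mem_product] at hcd
      simp only at hcd
      rcases key c hcd.1.1 d hcd.1.2 a hab.1 b hab.2 hcd.2 with ⟨rfl, rfl⟩ | ⟨rfl, rfl⟩ <;> simp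
    exact (card_le_card hsub).trans (card_le_two)
  rw [card_product] at h1
  exact h1

lemma exists_S : ∃ S : Finset ℕ, 2 * (diffs S).card < (sums S).card ∧ 0 ∈ S := by
  have key : ∀ n : ℕ, n = 18 → 2 * (diffs (U 29 n)).card < (sums (U 29 n)).card := by
    intro n hn
    have h1 := sums_U 29 n le_rfl
    have h2 := diffs_U 29 n
    have h3 : 2 * 25 ^ n < 26 ^ n := by rw [hn]; norm_num
    exact lt_of_le_of_lt (Nat.mul_le_mul_left 2 h2) (lt_of_lt_of_le h3 h1)
  obtain ⟨n, hn⟩ : ∃ n : ℕ, n = 18 := ⟨_, rfl⟩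
  exact ⟨U 29 n, key n hn, zero_mem_U 29 n⟩

/-- The main construction. -/
theorem exists_set : ∃ A : Finset ℕ, A.Nonempty ∧ (∀ a ∈ A, 1 ≤ a) ∧
    (diffs A).card < (sums A).card ∧ (ratios A).card < (prods A).card := by
  classical
  -- the exponents
  obtain ⟨S, hSS, hS0⟩ := exists_S
  set m : ℕ := S.sup id with hm
  have hSm : ∀ s ∈ S, s ≤ m := fun s hs => le_sup (f := id) hs
  -- the digits
  obtain ⟨D', hD'⟩ : ∃ D' : ℕ, ((S.card * S.card * 64 ^ m : ℕ) : ℝ) < (26 / 25 : ℝ) ^ D' :=
    pow_unbounded_of_one_lt _ (by norm_num)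
  set D : ℕ := D' + m with hD
  have hDbound : S.card * S.card * (64 ^ m * 25 ^ D) < 26 ^ D := by
    have h1 : ((S.card * S.card * 64 ^ m : ℕ) : ℝ) < (26 / 25 : ℝ) ^ D :=
      hD'.trans_le (pow_le_pow_right₀ (by norm_num) (by omega))
    rw [div_pow, lt_div_iff₀ (by positivity)] at h1
    have h2 : S.card * S.card * 64 ^ m * 25 ^ D < 26 ^ D := by exact_mod_cast h1
    calc _ = S.card * S.card * 64 ^ m * 25 ^ D := by ring
      _ < _ := h2
  set q : ℕ := 29 with hq
  set W : Finset ℕ := U q D with hW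
  set M : ℕ := q * W.sup id with hM
  set κ : ℕ := 1 + q * (M * M) with hκ
  have hWM : ∀ u ∈ W, q * u ≤ M := fun u hu => Nat.mul_le_mul_left q (le_sup (f := id) hu)
  have hκM : M * M < κ := by
    rw [hκ]
    have : M * M ≤ q * (M * M) := Nat.le_mul_of_pos_left _ (by omega)
    omega
  set B : Finset ℕ := W.image (fun u => κ + q * u) with hB
  have hBcard : B.card = W.card := by
    apply card_image_of_injective
    intro a b h
    simp only at h
    have h' : q * a = q * b := by omega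
    exact Nat.eq_of_mul_eq_mul_left (by omega) h'
  have hBform : ∀ b ∈ B, ∃ v, v ≤ M ∧ b = κ + v := by
    intro b hb
    rw [hB, mem_image] at hb
    obtain ⟨u, hu, rfl⟩ := hb
    exact ⟨q * u, hWM u hu, rfl⟩
  have hBmod : ∀ b ∈ B, b % q = 1 := by
    intro b hb
    rw [hB, mem_image] at hb
    obtain ⟨u, hu, rfl⟩ := hb
    rw [hκ, show 1 + q * (M * M) + q * u = 1 + q * (M * M + u) by ring, Nat.add_mul_mod_self_left, hq]
  have hBB := prods_card B κ M hκM hBform
  have hBne : 0 < B.card := by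
    rw [hBcard]
    exact card_pos.2 ⟨0, zero_mem_U q D⟩
  set A : Finset ℕ := (S ×ˢ B).image (fun p => q ^ p.1 * p.2) with hA
  have memA : ∀ x, x ∈ A ↔ ∃ s ∈ S, ∃ b ∈ B, x = q ^ s * b := by
    intro x
    rw [hA, mem_image]
    constructor
    · rintro ⟨⟨s, b⟩, h, rfl⟩
      rw [mem_product] at h
      exact ⟨s, h.1, b, h.2, rfl⟩
    · rintro ⟨s, hs, b, hb, rfl⟩
      exact ⟨(s, b), mem_product.2 ⟨hs, hb⟩, rfl⟩
  have hBpos : ∀ b ∈ B, 1 ≤ b := by
    intro b hb
    obtain ⟨v, -, rfl⟩ := hBform b hb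
    omega
  refine ⟨A, ?_, ?_, ?_, ?_⟩
  · obtain ⟨b, hb⟩ := card_pos.1 hBne
    exact ⟨q ^ 0 * b, (memA _).2 ⟨0, hS0, b, hb, rfl⟩⟩
  · intro a ha
    obtain ⟨s, hs, b, hb, rfl⟩ := (memA a).1 ha
    exact Nat.mul_pos (pow_pos (by omega) _) (hBpos b hb)
  · -- additive part
    have hlow : 26 ^ D ≤ (sums A).card := by
      refine (sums_U q D le_rfl).trans ?_
      have hinj : Function.Injective (fun x : ℕ => 2 * κ + q * x) := by
        intro a b h
        simp only at h
        have h' : q * a = q * b := by omega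
        exact Nat.eq_of_mul_eq_mul_left (by omega) h'
      rw [← card_image_of_injective (sums (U q D)) hinj]
      apply card_le_card
      intro x hx
      rw [mem_image] at hx
      obtain ⟨y, hy, rfl⟩ := hx
      unfold sums at hy
      rw [mem_image] at hy
      obtain ⟨⟨u, v⟩, huv, rfl⟩ := hy
      rw [mem_product] at huv
      unfold sums
      rw [mem_image]
      refine ⟨(κ + q * u, κ + q * v), mem_product.2 ⟨?_, ?_⟩, ?_⟩
      · exact (memA _).2 ⟨0, hS0, κ + q * u, mem_image.2 ⟨u, huv.1, rfl⟩, by simp⟩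
      · exact (memA _).2 ⟨0, hS0, κ + q * v, mem_image.2 ⟨v, huv.2, rfl⟩, by simp⟩
      · simp only
        ring
    have hup : (diffs A).card ≤ S.card * S.card * (64 ^ m * 25 ^ D) := by
      -- cover
      set G : ℕ × ℕ → Finset ℤ := fun p =>
        if p.1 ≤ p.2 then (E q D (p.2 - p.1)).image
          (fun e => (q : ℤ) ^ p.1 * (κ - q ^ (p.2 - p.1) * κ + q * e))
        else (E q D (p.1 - p.2)).image
          (fun e => -((q : ℤ) ^ p.2 * (κ - q ^ (p.1 - p.2) * κ + q * e))) with hG
      have hGcard : ∀ p ∈ S ×ˢ S, (G p).card ≤ 64 ^ m * 25 ^ D := by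
        rintro ⟨s, s'⟩ hp
        rw [mem_product] at hp
        have b1 := hSm s hp.1
        have b2 := hSm s' hp.2
        rw [hG]
        simp only
        split_ifs with hle
        · refine card_image_le.trans ((E_card q D (s' - s) (by omega)).trans ?_)
          gcongr
          · norm_num
          · omega
        · refine card_image_le.trans ((E_card q D (s - s') (by omega)).trans ?_)
          gcongr
          · norm_num
          · omega
      have hcov : diffs A ⊆ (S ×ˢ S).biUnion G := by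
        intro x hx
        unfold diffs at hx
        rw [mem_image] at hx
        obtain ⟨⟨a, a'⟩, haa, rfl⟩ := hx
        rw [mem_product] at haa
        obtain ⟨s, hs, b, hb, h1⟩ := (memA _).1 haa.1
        obtain ⟨s', hs', b', hb', h2⟩ := (memA _).1 haa.2
        simp only at h1 h2
        subst h1; subst h2
        rw [hB, mem_image] at hb hb'
        obtain ⟨u, hu, rfl⟩ := hb
        obtain ⟨v, hv, rfl⟩ := hb'
        rw [mem_biUnion]
        refine ⟨(s, s'), mem_product.2 ⟨hs, hs'⟩, ?_⟩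
        rw [hG]
        simp only
        split_ifs with hle
        · rw [mem_image]
          refine ⟨(u : ℤ) - q ^ (s' - s) * v, mem_image.2 ⟨(u, v), mem_product.2 ⟨hu, hv⟩, rfl⟩, ?_⟩
          have e : (q : ℤ) ^ s' = (q : ℤ) ^ s * (q : ℤ) ^ (s' - s) := by
            rw [← pow_add]; congr 1; omega
          push_cast
          rw [e]
          ring
        · rw [mem_image]
          refine ⟨(v : ℤ) - q ^ (s - s') * u, mem_image.2 ⟨(v, u), mem_product.2 ⟨hv, hu⟩, rfl⟩, ?_⟩
          have e : (q : ℤ) ^ s = (q : ℤ) ^ s' * (q : ℤ) ^ (s - s') := by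
            rw [← pow_add]; congr 1; omega
          push_cast
          rw [e]
          ring
      refine (card_le_card hcov).trans (card_biUnion_le.trans ?_)
      refine (sum_le_sum hGcard).trans ?_
      rw [sum_const, card_product, smul_eq_mul]
    exact lt_of_le_of_lt hup (lt_of_lt_of_le hDbound hlow)
  · -- multiplicative part
    have hup : (ratios A).card ≤ (diffs S).card * (B.card * B.card) := by
      have hcov : ratios A ⊆ (diffs S ×ˢ (B ×ˢ B)).image
          (fun p : ℤ × (ℕ × ℕ) => (q : ℚ) ^ p.1 * ((p.2.1 : ℚ) / p.2.2)) := by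
        intro x hx
        unfold ratios at hx
        rw [mem_image] at hx
        obtain ⟨⟨a, a'⟩, haa, rfl⟩ := hx
        rw [mem_product] at haa
        obtain ⟨s, hs, b, hb, h1⟩ := (memA _).1 haa.1
        obtain ⟨s', hs', b', hb', h2⟩ := (memA _).1 haa.2
        simp only at h1 h2
        subst h1; subst h2
        rw [mem_image]
        refine ⟨((s : ℤ) - s', (b, b')), mem_product.2 ⟨mem_image.2 ⟨(s, s'), mem_product.2 ⟨hs, hs'⟩, rfl⟩,
          mem_product.2 ⟨hb, hb'⟩⟩, ?_⟩
        have hq0 : (q : ℚ) ≠ 0 := by rw [hq]; norm_num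
        simp only
        rw [zpow_sub₀ hq0, zpow_natCast, zpow_natCast]
        push_cast
        rw [mul_div_mul_comm]
      refine (card_le_card hcov).trans (card_image_le.trans ?_)
      rw [card_product, card_product]
    have hlow : (sums S).card * (prods B).card ≤ (prods A).card := by
      have hinj : Set.InjOn (fun p : ℕ × ℕ => q ^ p.1 * p.2)
          ((sums S ×ˢ prods B : Finset (ℕ × ℕ)) : Set (ℕ × ℕ)) := by
        have hpm : ∀ y ∈ prods B, y % q = 1 := by
          intro y hy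
          unfold prods at hy
          rw [mem_image] at hy
          obtain ⟨⟨b, b'⟩, hbb, rfl⟩ := hy
          rw [mem_product] at hbb
          simp only
          rw [Nat.mul_mod, hBmod b hbb.1, hBmod b' hbb.2, hq]
        have aux : ∀ t y t' y' : ℕ, y % q = 1 → y' % q = 1 → t ≤ t' → q ^ t * y = q ^ t' * y' →
            t = t' ∧ y = y' := by
          intro t y t' y' hy hy' hle h
          obtain ⟨e, rfl⟩ : ∃ e, t' = t + e := ⟨t' - t, by omega⟩
          rw [pow_add, mul_assoc] at h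
          have h1 : y = q ^ e * y' := Nat.eq_of_mul_eq_mul_left (pow_pos (by omega) t) h
          rcases Nat.eq_zero_or_pos e with rfl | he
          · exact ⟨rfl, by simpa using h1⟩
          · exfalso
            obtain ⟨e', rfl⟩ : ∃ e', e = e' + 1 := ⟨e - 1, by omega⟩
            rw [h1, pow_succ, mul_assoc, mul_comm q y', ← mul_assoc, Nat.mul_mod_left] at hy
            exact absurd hy (by norm_num)
        rintro ⟨t, y⟩ h1 ⟨t', y'⟩ h2 h
        rw [mem_coe, mem_product] at h1 h2
        simp only at h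
        rcases le_total t t' with hle | hle
        · obtain ⟨e1, e2⟩ := aux t y t' y' (hpm y h1.2) (hpm y' h2.2) hle h
          rw [e1, e2]
        · obtain ⟨e1, e2⟩ := aux t' y' t y (hpm y' h2.2) (hpm y h1.2) hle h.symm
          rw [e1, e2]
      rw [← card_product, ← card_image_of_injOn hinj]
      apply card_le_card
      intro x hx
      rw [mem_image] at hx
      obtain ⟨⟨t, y⟩, hty, rfl⟩ := hx
      rw [mem_product] at hty
      obtain ⟨ht, hy⟩ := hty
      unfold sums at ht
      unfold prods at hy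
      rw [mem_image] at ht hy
      obtain ⟨⟨s, s'⟩, hss, rfl⟩ := ht
      obtain ⟨⟨b, b'⟩, hbb, rfl⟩ := hy
      rw [mem_product] at hss hbb
      unfold prods
      rw [mem_image]
      refine ⟨(q ^ s * b, q ^ s' * b'), mem_product.2 ⟨(memA _).2 ⟨s, hss.1, b, hbb.1, rfl⟩,
        (memA _).2 ⟨s', hss.2, b', hbb.2, rfl⟩⟩, ?_⟩
      simp only
      rw [pow_add]; ring
    have h3 : (diffs S).card * (B.card * B.card) < (sums S).card * (prods B).card := by
      have hpos : 0 < B.card * B.card := Nat.mul_pos hBne hBne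
      have h4 : 2 * (diffs S).card * (B.card * B.card) < (sums S).card * (B.card * B.card) :=
        Nat.mul_lt_mul_of_pos_right hSS hpos
      have h5 : (sums S).card * (B.card * B.card) ≤ (sums S).card * (2 * (prods B).card) :=
        Nat.mul_le_mul_left _ hBB
      nlinarith
    exact lt_of_le_of_lt hup (lt_of_lt_of_le h3 hlow)

end Pool.Agent.R506.SumProd
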