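import Mathlib
import Pool.Agent.R497.TD.Defs

/-! Project TD (helper497), piece FG by helper506: one factor of lower degree is a good weight. -/

set_option autoImplicit false

namespace Pool.Agent.R506.TDFG

open MeasureTheory Filter Finset
open Pool.Agent.R497.TD
open Pool.Agent.Y957.MC (IsFlow flowInv smo)

universe u

/-- bounded measurable versions -/
lemma exists_version {X : Type u} [MeasurableSpace X] {μ : Measure X} {f : X → ℂ} (hf : AEStronglyMeasurable f μ)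
    (hfb : ∃ C : ℝ, ∀ᵐ x ∂μ, ‖f x‖ ≤ C) : ∃ g : X → ℂ, Measurable g ∧ (∃ C : ℝ, ∀ x, ‖g x‖ ≤ C) ∧ f =ᵐ[μ] g := by
  obtain ⟨C, hC⟩ := hfb
  have hm : Measurable (hf.mk f) := hf.stronglyMeasurable_mk.measurable
  refine ⟨fun x => if ‖hf.mk f x‖ ≤ C then hf.mk f x else 0, ?_, ⟨max C 0, fun x => ?_⟩, ?_⟩
  · exact Measurable.ite (measurableSet_le hm.norm measurable_const) hm measurable_const
  · dsimp only
    split_ifs with h
    · exact h.trans (le_max_left _ _)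
    · simp
  · filter_upwards [hC, hf.ae_eq_mk] with x h1 h2
    rw [← h2, if_pos h1]

/-- a polynomial of degree `< d` is `O(n ^ (d - 1))` -/
lemma poly_bd (P : Polynomial ℝ) (d : ℕ) (hd : P.natDegree < d) :
    ∃ C : ℝ, 0 ≤ C ∧ ∀ n : ℕ, 1 ≤ n → |P.eval (n : ℝ)| ≤ C * (n : ℝ) ^ (d - 1) := by
  refine ⟨∑ i ∈ range (P.natDegree + 1), |P.coeff i|, sum_nonneg fun i _ => abs_nonneg _, fun n hn => ?_⟩
  rw [Polynomial.eval_eq_sum_range, sum_mul]
  refine (abs_sum_le_sum_abs _ _).trans (sum_le_sum fun i hi => ?_)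
  rw [abs_mul, abs_pow, Nat.abs_cast]
  refine mul_le_mul_of_nonneg_left (pow_le_pow_right₀ (by exact_mod_cast hn) ?_) (abs_nonneg _)
  have := mem_range.mp hi
  omega

theorem t_FG (h1 : S_CTRL.{u}) (h2 : S_APX.{u}) : S_FG.{u} := by
  intro X _ μ _ τ f P d hτ hf hfb hP hPd
  obtain ⟨g, hgm, ⟨Cg, hCg⟩, hfg⟩ := exists_version hf hfb
  obtain ⟨fk, hfkm, ⟨Ck, hCk⟩, hLip, hap⟩ := h2 X μ τ g hτ hgm ⟨Cg, hCg⟩
  obtain ⟨CP, hCP0, hCP⟩ := poly_bd P d hPd
  obtain ⟨C, hC⟩ := hfb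
  refine ⟨⟨C, fun n => ae_of_all _ fun a => (hτ.mp _).quasiMeasurePreserving.ae hC⟩,
    fun k n a x => fk k (τ (a * P.eval (n : ℝ)) x), fun k => ?_, ?_⟩
  · obtain ⟨L, hL⟩ := hLip k
    refine ⟨fun n => (hfkm k).comp (hτ.meas.comp ((measurable_fst.mul_const _).prodMk measurable_snd)),
      max Ck (|L| * CP), fun n a x => (hCk k _).trans (le_max_left _ _), fun n hn a a' x => ?_⟩
    calc ‖fk k (τ (a * P.eval (n : ℝ)) x) - fk k (τ (a' * P.eval (n : ℝ)) x)‖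
        ≤ L * |a * P.eval (n : ℝ) - a' * P.eval (n : ℝ)| := hL _ _ _
      _ ≤ |L| * |a * P.eval (n : ℝ) - a' * P.eval (n : ℝ)| :=
          mul_le_mul_of_nonneg_right (le_abs_self L) (abs_nonneg _)
      _ = |L| * |P.eval (n : ℝ)| * |a - a'| := by rw [← sub_mul, abs_mul]; ring
      _ ≤ |L| * (CP * (n : ℝ) ^ (d - 1)) * |a - a'| :=
          mul_le_mul_of_nonneg_right (mul_le_mul_of_nonneg_left (hCP n hn) (abs_nonneg _)) (abs_nonneg _)
      _ = (|L| * CP) * (n : ℝ) ^ (d - 1) * |a - a'| := by ring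
      _ ≤ max Ck (|L| * CP) * (n : ℝ) ^ (d - 1) * |a - a'| :=
          mul_le_mul_of_nonneg_right (mul_le_mul_of_nonneg_right (le_max_right _ _) (by positivity)) (abs_nonneg _)
  · have h3 : ∀ᵐ a : ℝ, ∀ k, ∀ᵐ x ∂μ, Tendsto (fun N : ℕ => (1 / (N : ℝ)) * ∑ n ∈ Icc 1 N,
        ‖g (τ (a * P.eval (n : ℝ)) x) - fk k (τ (a * P.eval (n : ℝ)) x)‖) atTop
          (nhds ((μ[fun y => ‖g y - fk k y‖ | flowInv τ]) x)) := by
      rw [ae_all_iff]
      intro k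
      exact h1 X μ τ (fun y => ‖g y - fk k y‖) P hτ (hgm.sub (hfkm k)).norm
        ⟨Cg + Ck, fun x => by rw [abs_norm]; exact (norm_sub_le _ _).trans (add_le_add (hCg x) (hCk k x))⟩ hP
    filter_upwards [h3] with a ha
    have h4 : ∀ᵐ x ∂μ, ∀ k, Tendsto (fun N : ℕ => (1 / (N : ℝ)) * ∑ n ∈ Icc 1 N,
        ‖g (τ (a * P.eval (n : ℝ)) x) - fk k (τ (a * P.eval (n : ℝ)) x)‖) atTop
          (nhds ((μ[fun y => ‖g y - fk k y‖ | flowInv τ]) x)) := ae_all_iff.2 ha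
    have h5 : ∀ᵐ x ∂μ, ∀ n : ℕ, f (τ (a * P.eval (n : ℝ)) x) = g (τ (a * P.eval (n : ℝ)) x) := by
      rw [ae_all_iff]
      intro n
      exact (hτ.mp _).quasiMeasurePreserving.ae hfg
    filter_upwards [h4, h5, hap] with x hx hx5 hxa ε hε
    obtain ⟨k, hk⟩ := hxa ε hε
    refine ⟨k, ?_⟩
    filter_upwards [(hx k).eventually_lt_const hk] with N hN
    simp only [hx5]
    exact hN.le

end Pool.Agent.R506.TDFG
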