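import Mathlib
import Pool.Agent.R497.TD.Defs

/-! Project TD (helper497), piece TOP by helper506: the factor of highest degree decouples. -/

set_option autoImplicit false

namespace Pool.Agent.R506.TDTOP

open MeasureTheory Filter Finset
open Pool.Agent.R497.TD
open Pool.Agent.Y957.MC (IsFlow flowInv smo)

universe u

/-- bounded measurable versions -/
lemma exists_version {X : Type u} [MeasurableSpace X] {μ : Measure X} {f : X → ℂ} (hf : AEStronglyMeasurable f μ)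
    (hfb : ∃ C : ℝ, ∀ᵐ x ∂μ, ‖f x‖ ≤ C) : ∃ g : X → ℂ, Measurable g ∧ (∃ C : ℝ, ∀ x, ‖g x‖ ≤ C) ∧ f =ᵐ[μ] g := by
  obtain ⟨C, hC⟩ := hfb
  have hm : Measurable (hf.mk f) := hf.stronglyMeasurable_mk.measurable
  refine ⟨fun x => if ‖hf.mk f x‖ ≤ C then hf.mk f x else 0, ?_, ⟨max C 0, fun x => ?_⟩, ?_⟩
  · exact Measurable.ite (measurableSet_le hm.norm measurable_const) hm measurable_const
  · dsimp only
    split_ifs with h
    · exact h.trans (le_max_left _ _)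
    · simp
  · filter_upwards [hC, hf.ae_eq_mk] with x h1 h2
    rw [← h2, if_pos h1]

/-- conditional expectations of complex functions, coordinatewise -/
lemma condExp_re_im {X : Type u} {m : MeasurableSpace X} [mX : MeasurableSpace X] {μ : Measure X}
    [IsProbabilityMeasure μ] {f : X → ℂ} (hf : Integrable f μ) :
    ∀ᵐ x ∂μ, (μ[f | m]) x = (((μ[fun y => (f y).re | m]) x : ℝ) : ℂ) + Complex.I * (((μ[fun y => (f y).im | m]) x : ℝ) : ℂ) := by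
  have h1 : Integrable (fun y => (((f y).re : ℝ) : ℂ)) μ := hf.re.ofReal
  have h2 : Integrable (fun y => (((f y).im : ℝ) : ℂ)) μ := hf.im.ofReal
  have e0 : f = (fun y => (((f y).re : ℝ) : ℂ)) + Complex.I • (fun y => (((f y).im : ℝ) : ℂ)) := by
    funext y
    simp only [Pi.add_apply, Pi.smul_apply, smul_eq_mul]
    rw [mul_comm]
    exact (Complex.re_add_im (f y)).symm
  have e1 : μ[f | m] =ᵐ[μ] μ[(fun y => (((f y).re : ℝ) : ℂ)) | m] + μ[Complex.I • (fun y => (((f y).im : ℝ) : ℂ)) | m] := by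
    conv_lhs => rw [e0]
    exact condExp_add h1 (h2.smul _) m
  have e2 : μ[Complex.I • (fun y => (((f y).im : ℝ) : ℂ)) | m] =ᵐ[μ] Complex.I • μ[(fun y => (((f y).im : ℝ) : ℂ)) | m] :=
    condExp_smul _ _ m
  have e3 : μ[(fun y => (((f y).re : ℝ) : ℂ)) | m] =ᵐ[μ] fun x => (((μ[fun y => (f y).re | m]) x : ℝ) : ℂ) :=
    (Complex.ofRealCLM.comp_condExp_comm hf.re).symm
  have e4 : μ[(fun y => (((f y).im : ℝ) : ℂ)) | m] =ᵐ[μ] fun x => (((μ[fun y => (f y).im | m]) x : ℝ) : ℂ) :=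
    (Complex.ofRealCLM.comp_condExp_comm hf.im).symm
  filter_upwards [e1, e2, e3, e4] with x h1 h2 h3 h4
  rw [h1, Pi.add_apply, h2, Pi.smul_apply, h3, h4, smul_eq_mul]

/-- the approximation argument for one sequence -/
lemma seq_lemma (B : ℕ → ℂ) (v : ℕ → ℝ) (M : ℝ) (hv : ∀ n, |v n| ≤ M)
    (H : ∀ ε : ℝ, 0 < ε → ∃ (Bl : ℕ → ℂ) (C : ℝ), (∀ n, ‖Bl n‖ ≤ C) ∧
      (∀ᶠ N : ℕ in atTop, (1 / (N : ℝ)) * ∑ n ∈ Icc 1 N, ‖B n - Bl n‖ ≤ ε) ∧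
      ∀ δ : ℝ, 0 < δ → ∃ w : ℕ → ℝ,
        Tendsto (fun N : ℕ => (1 / (N : ℂ)) * ∑ n ∈ Icc 1 N, Bl n * (w n : ℂ)) atTop (nhds 0) ∧
        ∀ᶠ N : ℕ in atTop, (1 / (N : ℝ)) * ∑ n ∈ Icc 1 N, |v n - w n| ≤ δ) :
    Tendsto (fun N : ℕ => (1 / (N : ℂ)) * ∑ n ∈ Icc 1 N, B n * (v n : ℂ)) atTop (nhds 0) := by
  have hM : 0 ≤ M := (abs_nonneg _).trans (hv 0)
  rw [NormedAddGroup.tendsto_nhds_zero]
  intro ε hε
  obtain ⟨Bl, C, hC, h1, h2⟩ := H (ε / (3 * (M + 1))) (by positivity)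
  have hC0 : 0 ≤ C := (norm_nonneg _).trans (hC 0)
  obtain ⟨w, hw1, hw2⟩ := h2 (ε / (3 * (C + 1))) (by positivity)
  rw [NormedAddGroup.tendsto_nhds_zero] at hw1
  filter_upwards [h1, hw2, hw1 (ε / 3) (by positivity)] with N hN1 hN2 hN3
  have e : (1 / (N : ℂ)) * ∑ n ∈ Icc 1 N, B n * (v n : ℂ) =
      (1 / (N : ℂ)) * ∑ n ∈ Icc 1 N, (B n - Bl n) * (v n : ℂ) +
      (1 / (N : ℂ)) * ∑ n ∈ Icc 1 N, Bl n * (w n : ℂ) +
      (1 / (N : ℂ)) * ∑ n ∈ Icc 1 N, Bl n * ((v n - w n : ℝ) : ℂ) := by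
    rw [← mul_add, ← mul_add, ← sum_add_distrib, ← sum_add_distrib]
    congr 1
    refine sum_congr rfl fun n _ => ?_
    push_cast
    ring
  have b1 : ‖(1 / (N : ℂ)) * ∑ n ∈ Icc 1 N, (B n - Bl n) * (v n : ℂ)‖ ≤
      M * ((1 / (N : ℝ)) * ∑ n ∈ Icc 1 N, ‖B n - Bl n‖) := by
    rw [norm_mul, norm_div, norm_one, Complex.norm_natCast, mul_left_comm M, mul_sum]
    refine mul_le_mul_of_nonneg_left ((norm_sum_le _ _).trans (sum_le_sum fun n _ => ?_)) (by positivity)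
    rw [norm_mul, Complex.norm_real, Real.norm_eq_abs, mul_comm]
    exact mul_le_mul_of_nonneg_right (hv n) (norm_nonneg _)
  have b2 : ‖(1 / (N : ℂ)) * ∑ n ∈ Icc 1 N, Bl n * ((v n - w n : ℝ) : ℂ)‖ ≤
      C * ((1 / (N : ℝ)) * ∑ n ∈ Icc 1 N, |v n - w n|) := by
    rw [norm_mul, norm_div, norm_one, Complex.norm_natCast, mul_left_comm C, mul_sum]
    refine mul_le_mul_of_nonneg_left ((norm_sum_le _ _).trans (sum_le_sum fun n _ => ?_)) (by positivity)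
    rw [norm_mul, Complex.norm_real, Real.norm_eq_abs]
    exact mul_le_mul_of_nonneg_right (hC n) (abs_nonneg _)
  have key : ∀ K : ℝ, 0 ≤ K → K * (ε / (3 * (K + 1))) ≤ ε / 3 := by
    intro K hK
    rw [mul_div_assoc', div_le_div_iff₀ (by positivity) (by norm_num)]
    nlinarith
  have c1 : M * ((1 / (N : ℝ)) * ∑ n ∈ Icc 1 N, ‖B n - Bl n‖) ≤ ε / 3 :=
    (mul_le_mul_of_nonneg_left hN1 hM).trans (key M hM)
  have c2 : C * ((1 / (N : ℝ)) * ∑ n ∈ Icc 1 N, |v n - w n|) ≤ ε / 3 :=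
    (mul_le_mul_of_nonneg_left hN2 hC0).trans (key C hC0)
  rw [e]
  calc _ ≤ _ := norm_add₃_le
    _ < ε := by linarith

/-- the real case -/
lemma top_real (h1 : S_CORER.{u}) (h2 : S_CTRL.{u}) (h3 : S_APXG.{u}) {X : Type u} [MeasurableSpace X]
    {μ : Measure X} [IsProbabilityMeasure μ] {σ : ℝ → X → X} {g : X → ℝ} {P : Polynomial ℝ}
    {B : ℕ → ℝ → X → ℂ} (hσ : IsFlow μ σ) (hg : Measurable g) (hgb : ∃ C, ∀ x, |g x| ≤ C) (hP : 0 < P.natDegree)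
    (hB : GoodW μ P.natDegree B) : ∀ᵐ a : ℝ, ∀ᵐ x ∂μ,
      Tendsto (fun N : ℕ => (1 / (N : ℂ)) * ∑ n ∈ Icc 1 N, B n a x *
        (((g (σ (a * P.eval (n : ℝ)) x) - (μ[g | flowInv σ]) x : ℝ)) : ℂ)) atTop (nhds 0) := by
  obtain ⟨gb, gk, hgbm, ⟨Cb, hCb⟩, hinv, heq, hnice, hap⟩ := h3 X μ σ g hσ hg hgb
  obtain ⟨Cg, hCg⟩ := hgb
  obtain ⟨-, Bl, hBl, hBapp⟩ := hB
  have a1 : ∀ᵐ a : ℝ, ∀ k l, ∀ᵐ x ∂μ, Tendsto (fun N : ℕ => (1 / (N : ℂ)) * ∑ n ∈ Icc 1 N,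
      Bl l n a x * (gk k (σ (a * P.eval (n : ℝ)) x) : ℂ)) atTop (nhds 0) := by
    rw [ae_all_iff]
    intro k
    rw [ae_all_iff]
    intro l
    exact h1 X μ σ (gk k) P (Bl l) hσ (hnice k) hP (hBl l)
  have a2 : ∀ᵐ a : ℝ, ∀ k, ∀ᵐ x ∂μ, Tendsto (fun N : ℕ => (1 / (N : ℝ)) * ∑ n ∈ Icc 1 N,
      |g (σ (a * P.eval (n : ℝ)) x) - gb (σ (a * P.eval (n : ℝ)) x) - gk k (σ (a * P.eval (n : ℝ)) x)|) atTop
      (nhds ((μ[fun y => |g y - gb y - gk k y| | flowInv σ]) x)) := by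
    rw [ae_all_iff]
    intro k
    obtain ⟨hkm, Ck, hkb, -, -⟩ := hnice k
    refine h2 X μ σ (fun y => |g y - gb y - gk k y|) P hσ ?_ ⟨Cg + Cb + Ck, fun x => ?_⟩ hP
    · exact ((hg.sub hgbm).sub hkm).norm
    · rw [abs_abs]
      refine (abs_sub _ _).trans (add_le_add ((abs_sub _ _).trans (add_le_add (hCg x) (hCb x))) (hkb x))
  filter_upwards [a1, a2, hBapp] with a ha1 ha2 ha3
  have b1 : ∀ᵐ x ∂μ, ∀ k l, Tendsto (fun N : ℕ => (1 / (N : ℂ)) * ∑ n ∈ Icc 1 N,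
      Bl l n a x * (gk k (σ (a * P.eval (n : ℝ)) x) : ℂ)) atTop (nhds 0) := by
    rw [ae_all_iff]
    intro k
    rw [ae_all_iff]
    intro l
    exact ha1 k l
  have b2 : ∀ᵐ x ∂μ, ∀ k, Tendsto (fun N : ℕ => (1 / (N : ℝ)) * ∑ n ∈ Icc 1 N,
      |g (σ (a * P.eval (n : ℝ)) x) - gb (σ (a * P.eval (n : ℝ)) x) - gk k (σ (a * P.eval (n : ℝ)) x)|) atTop
      (nhds ((μ[fun y => |g y - gb y - gk k y| | flowInv σ]) x)) := ae_all_iff.2 ha2
  filter_upwards [b1, b2, ha3, heq, hap] with x hx1 hx2 hx3 hx4 hx5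
  refine seq_lemma (fun n => B n a x) (fun n => g (σ (a * P.eval (n : ℝ)) x) - (μ[g | flowInv σ]) x)
    (Cg + |(μ[g | flowInv σ]) x|) (fun n => (abs_sub _ _).trans (by linarith [hCg (σ (a * P.eval (n : ℝ)) x)]))
    fun ε hε => ?_
  obtain ⟨l, hl⟩ := hx3 ε hε
  obtain ⟨-, Cl, hCl, -⟩ := hBl l
  refine ⟨fun n => Bl l n a x, Cl, fun n => hCl n a x, hl, fun δ hδ => ?_⟩
  obtain ⟨k, hk⟩ := hx5 δ hδ
  refine ⟨fun n => gk k (σ (a * P.eval (n : ℝ)) x), hx1 k l, ?_⟩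
  filter_upwards [(hx2 k).eventually_lt_const hk] with N hN
  rw [← hx4]
  simp only [hinv] at hN
  exact hN.le

theorem t_TOP (h1 : S_CORER.{u}) (h2 : S_CTRL.{u}) (h3 : S_APXG.{u}) : S_TOP.{u} := by
  intro X _ μ _ σ g P B hσ hg hgb hP hB
  obtain ⟨f, hfm, ⟨C, hC⟩, hgf⟩ := exists_version hg hgb
  have hint : Integrable f μ := Integrable.of_bound hfm.aestronglyMeasurable C (ae_of_all _ hC)
  have r1 := top_real h1 h2 h3 (g := fun y => (f y).re) hσ (Complex.measurable_re.comp hfm)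
    ⟨C, fun x => (Complex.abs_re_le_norm _).trans (hC x)⟩ hP hB
  have r2 := top_real h1 h2 h3 (g := fun y => (f y).im) hσ (Complex.measurable_im.comp hfm)
    ⟨C, fun x => (Complex.abs_im_le_norm _).trans (hC x)⟩ hP hB
  have c1 := condExp_re_im (m := flowInv σ) hint
  have c2 : μ[g | flowInv σ] =ᵐ[μ] μ[f | flowInv σ] := condExp_congr_ae hgf
  filter_upwards [r1, r2] with a ha1 ha2
  have h5 : ∀ᵐ x ∂μ, ∀ n : ℕ, g (σ (a * P.eval (n : ℝ)) x) = f (σ (a * P.eval (n : ℝ)) x) := by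
    rw [ae_all_iff]
    intro n
    exact (hσ.mp _).quasiMeasurePreserving.ae hgf
  filter_upwards [ha1, ha2, c1, c2, h5] with x hx1 hx2 hx3 hx4 hx5
  have h6 := hx1.add (hx2.const_mul Complex.I)
  rw [mul_zero, add_zero] at h6
  refine h6.congr fun N => ?_
  rw [mul_left_comm, ← mul_add, mul_sum, ← sum_add_distrib]
  congr 1
  refine sum_congr rfl fun n _ => ?_
  rw [hx5 n, hx4, hx3]
  have e : f (σ (a * P.eval (n : ℝ)) x) = (((f (σ (a * P.eval (n : ℝ)) x)).re : ℝ) : ℂ) +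
      Complex.I * (((f (σ (a * P.eval (n : ℝ)) x)).im : ℝ) : ℂ) := by
    rw [mul_comm Complex.I]
    exact (Complex.re_add_im _).symm
  conv_rhs => rw [e]
  push_cast
  ring

end Pool.Agent.R506.TDTOP
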