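import Pool.Agent.R537.TE.Stm

/-! Project TE (helper537), piece CERT by helper506: the lower bound for the root lattice `A_m`. -/

set_option autoImplicit false

namespace Pool.Agent.R506.TECERT

open Pool.Agent.R537.TE
open Real Finset

lemma lim_cos (θ : ℝ) : Filter.Tendsto (fun ε : ℝ => 2 * (1 - cos (ε * θ)) / ε ^ 2) (nhdsWithin 0 {0}ᶜ)
    (nhds (θ ^ 2)) := by
  have h : HasDerivAt (fun t : ℝ => sin (t * (θ / 2))) (cos (0 * (θ / 2)) * (1 * (θ / 2))) 0 :=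
    ((hasDerivAt_id (0 : ℝ)).mul_const (θ / 2)).sin
  have h1 := (hasDerivAt_iff_tendsto_slope_zero.mp h)
  have h2 := (h1.pow 2).const_mul 4
  have e : 4 * (cos (0 * (θ / 2)) * (1 * (θ / 2))) ^ 2 = θ ^ 2 := by
    rw [zero_mul, cos_zero]; ring
  rw [e] at h2
  refine h2.congr fun t => ?_
  simp only [zero_add, zero_mul, sin_zero, sub_zero, smul_eq_mul]
  have : cos (t * θ) = 1 - 2 * sin (t * (θ / 2)) ^ 2 := by
    have h3 : t * θ = 2 * (t * (θ / 2)) := by ring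
    rw [h3, cos_two_mul, cos_sq']; ring
  rw [this]
  rcases eq_or_ne t 0 with rfl | ht
  · simp
  · field_simp; ring

lemma four (x : ℝ) (hx : x ∈ Set.Icc (0:ℝ) 1) :
    HasSum (fun n : ℕ => 1 / (n : ℝ) ^ 2 * (1 - cos (2 * π * n * x))) (π ^ 2 * (x * (1 - x))) := by
  have h1 := hasSum_one_div_nat_pow_mul_cos (k := 1) one_ne_zero hx
  have h2 := hasSum_zeta_two
  have h3 := h2.sub h1
  have e : (Polynomial.map (algebraMap ℚ ℝ) (Polynomial.bernoulli (2 * 1))).eval x = x ^ 2 - x + 1 / 6 := by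
    simp [Polynomial.bernoulli, Finset.sum_range_succ, bernoulli_eq_bernoulli'_of_ne_one, bernoulli'_two]
    ring
  rw [e] at h3
  have e2 : (fun n : ℕ => 1 / (n : ℝ) ^ 2 - 1 / (n : ℝ) ^ (2 * 1) * cos (2 * π * n * x)) =
      fun n : ℕ => 1 / (n : ℝ) ^ 2 * (1 - cos (2 * π * n * x)) := by
    funext n
    rw [mul_one, mul_sub, mul_one]
  have e3 : π ^ 2 / 6 - (-1) ^ (1 + 1) * (2 * π) ^ (2 * 1) / 2 / ((2 * 1).factorial : ℝ) * (x ^ 2 - x + 1 / 6) =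
      π ^ 2 * (x * (1 - x)) := by
    norm_num [Nat.factorial]
    ring
  rw [e2, e3] at h3
  exact h3

lemma summable_G {m : ℕ} {z : (Fin m → ℤ) → ℝ} (hz : ∀ c, 0 ≤ z c) (hs : Summable z) (t : Fin m → ℝ) :
    Summable fun c : Fin m → ℤ => z c * (1 - cos (2 * π * ∑ i, (c i : ℝ) * t i)) := by
  refine Summable.of_norm_bounded (hs.mul_right 2) fun c => ?_
  rw [norm_mul, Real.norm_eq_abs, Real.norm_eq_abs, abs_of_nonneg (hz c)]
  refine mul_le_mul_of_nonneg_left ?_ (hz c)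
  rw [abs_le]
  constructor <;> linarith [cos_le_one (2 * π * ∑ i, (c i : ℝ) * t i), neg_one_le_cos (2 * π * ∑ i, (c i : ℝ) * t i)]

lemma term_nonneg {m : ℕ} {z : (Fin m → ℤ) → ℝ} (hz : ∀ c, 0 ≤ z c) (t : Fin m → ℝ) (c : Fin m → ℤ) :
    0 ≤ z c * (1 - cos (2 * π * ∑ i, (c i : ℝ) * t i)) :=
  mul_nonneg (hz c) (by linarith [cos_le_one (2 * π * ∑ i, (c i : ℝ) * t i)])

lemma second_moment {m : ℕ} {z : (Fin m → ℤ) → ℝ} {C : ℝ} (hz : ∀ c, 0 ≤ z c) (hs : Summable z)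
    (hG : ∀ t : Fin m → ℝ, G z t ≤ C * (∑ i, t i ^ 2 + (∑ i, t i) ^ 2)) (s : Finset (Fin m → ℤ)) (v : Fin m → ℝ) :
    ∑ c ∈ s, z c * (2 * π * ∑ i, (c i : ℝ) * v i) ^ 2 ≤ C * (∑ i, v i ^ 2 + (∑ i, v i) ^ 2) := by
  have h1 : Filter.Tendsto (fun ε : ℝ => ∑ c ∈ s,
      z c * (2 * (1 - cos (ε * (2 * π * ∑ i, (c i : ℝ) * v i))) / ε ^ 2)) (nhdsWithin 0 {0}ᶜ)
      (nhds (∑ c ∈ s, z c * (2 * π * ∑ i, (c i : ℝ) * v i) ^ 2)) :=
    tendsto_finsetSum _ fun c _ => (lim_cos _).const_mul _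
  refine le_of_tendsto h1 ?_
  filter_upwards [self_mem_nhdsWithin] with ε hε
  have hε0 : ε ≠ 0 := hε
  have hε2 : 0 < ε ^ 2 := by positivity
  have e1 : ∑ c ∈ s, z c * (2 * (1 - cos (ε * (2 * π * ∑ i, (c i : ℝ) * v i))) / ε ^ 2) =
      (2 * ∑ c ∈ s, z c * (1 - cos (ε * (2 * π * ∑ i, (c i : ℝ) * v i)))) / ε ^ 2 := by
    rw [mul_sum, sum_div]
    exact sum_congr rfl fun c _ => by ring
  rw [e1, div_le_iff₀ hε2]
  have h2 : 2 * ∑ c ∈ s, z c * (1 - cos (ε * (2 * π * ∑ i, (c i : ℝ) * v i))) ≤ G z (fun i => ε * v i) := by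
    rw [G]
    refine mul_le_mul_of_nonneg_left ?_ (by norm_num)
    have e2 : ∑ c ∈ s, z c * (1 - cos (ε * (2 * π * ∑ i, (c i : ℝ) * v i))) =
        ∑ c ∈ s, z c * (1 - cos (2 * π * ∑ i, (c i : ℝ) * (ε * v i))) := by
      refine sum_congr rfl fun c _ => ?_
      have : ε * (2 * π * ∑ i, (c i : ℝ) * v i) = 2 * π * ∑ i, (c i : ℝ) * (ε * v i) := by
        rw [mul_left_comm, mul_sum]
        congr 1
        exact sum_congr rfl fun i _ => by ring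
      rw [this]
    rw [e2]
    exact (summable_G hz hs (fun i => ε * v i)).sum_le_tsum s fun c _ => term_nonneg hz _ c
  refine h2.trans ((hG _).trans (le_of_eq ?_))
  simp only [mul_pow, ← mul_sum]
  ring

lemma int_ineq (N A S r j : ℤ) (hN : 0 ≤ N) (hS : S = N * j + r) (hA : r + 2 * j * S - N * j ^ 2 ≤ A) :
    r * (N - r) ≤ N * A - S ^ 2 := by
  subst hS
  nlinarith [mul_nonneg hN (sub_nonneg.2 hA)]

lemma quad (m : ℕ) (c : Fin m → ℤ) : ∑ i, (c i : ℝ) ^ 2 + (1 / 2) * ∑ i, ∑ j, ((c i : ℝ) - c j) ^ 2 =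
    ((m : ℝ) + 1) * ∑ i, (c i : ℝ) ^ 2 - (∑ i, (c i : ℝ)) ^ 2 := by
  have e : ∀ i j, ((c i : ℝ) - c j) ^ 2 = (c i : ℝ) ^ 2 - 2 * ((c i : ℝ) * c j) + (c j : ℝ) ^ 2 := by
    intros; ring
  simp only [e, sum_add_distrib, sum_sub_distrib, ← mul_sum, ← sum_mul, sum_const, card_univ, Fintype.card_fin,
    nsmul_eq_mul]
  ring

lemma key {m : ℕ} (c : Fin m → ℤ) :
    ∑ a ∈ Icc 1 m, 1 / (a : ℝ) ^ 2 * (1 - cos (2 * π * ∑ i, (c i : ℝ) * (-((a : ℝ) / (m + 1))))) ≤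
      π ^ 2 / ((m : ℝ) + 1) ^ 2 * (((m : ℝ) + 1) * ∑ i, (c i : ℝ) ^ 2 - (∑ i, (c i : ℝ)) ^ 2) := by
  set S : ℤ := ∑ i, c i with hS
  set N : ℤ := (m : ℤ) + 1 with hN
  have hNpos : 0 < N := by omega
  set j : ℤ := S / N with hj
  set r : ℤ := S % N with hr
  have hSj : S = N * j + r := by
    rw [hj, hr]
    exact (Int.mul_ediv_add_emod S N).symm
  have hr0 : 0 ≤ r := Int.emod_nonneg _ hNpos.ne'
  have hr1 : r < N := Int.emod_lt_of_pos _ hNpos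
  have hNR : ((m : ℝ) + 1) = (N : ℝ) := by rw [hN]; push_cast; rfl
  have hNR0 : (0 : ℝ) < (N : ℝ) := by exact_mod_cast hNpos
  have hSR : ∑ i, (c i : ℝ) = (S : ℝ) := by rw [hS]; push_cast; rfl
  -- the integer inequality
  have hA : r + 2 * j * S - N * j ^ 2 ≤ ∑ i, (c i) ^ 2 := by
    have h1 : ∑ i, (c i - j) ≤ ∑ i, (c i - j) ^ 2 := sum_le_sum fun i _ => Int.le_self_sq _
    have h2 : ∑ i, (c i - j) = S - m * j := by
      rw [sum_sub_distrib, sum_const, card_univ, Fintype.card_fin, nsmul_eq_mul]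
    have h3 : ∑ i, (c i - j) ^ 2 = ∑ i, (c i) ^ 2 - 2 * j * S + m * j ^ 2 := by
      have e : ∀ i, (c i - j) ^ 2 = (c i) ^ 2 - 2 * j * c i + j ^ 2 := by intro i; ring
      simp only [e, sum_add_distrib, sum_sub_distrib, ← mul_sum, sum_const, card_univ, Fintype.card_fin, nsmul_eq_mul]
      rw [hS]
    have h4 : -j ≤ (-j) ^ 2 := Int.le_self_sq _
    rw [h2, h3] at h1
    have h5 : N * j = m * j + j := by rw [hN]; ring
    have h6 : N * j ^ 2 = m * j ^ 2 + j ^ 2 := by rw [hN]; ring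
    rw [neg_sq] at h4
    linarith
  have hI := int_ineq N (∑ i, (c i) ^ 2) S r j hNpos.le hSj hA
  have hIR : (r : ℝ) * ((N : ℝ) - r) ≤ (N : ℝ) * ∑ i, (c i : ℝ) ^ 2 - (S : ℝ) ^ 2 := by exact_mod_cast hI
  -- the Fourier series
  have hx : (r : ℝ) / N ∈ Set.Icc (0 : ℝ) 1 := by
    refine ⟨by positivity, ?_⟩
    rw [div_le_one hNR0]
    exact_mod_cast hr1.le
  have h4 := sum_le_hasSum (Icc 1 m) (fun n _ => ?_) (four ((r : ℝ) / N) hx)
  swap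
  · exact mul_nonneg (by positivity) (by linarith [cos_le_one (2 * π * n * ((r : ℝ) / N))])
  have e1 : ∀ a : ℕ, cos (2 * π * ∑ i, (c i : ℝ) * (-((a : ℝ) / (m + 1)))) = cos (2 * π * a * ((r : ℝ) / N)) := by
    intro a
    rw [← sum_mul, hSR, hNR, hSj, ← cos_neg]
    have : -(2 * π * (((N * j + r : ℤ) : ℝ) * -((a : ℝ) / N))) = 2 * π * a * ((r : ℝ) / N) + ((a * j : ℤ) : ℝ) * (2 * π) := by
      push_cast
      field_simp
      ring
    rw [this, cos_add_int_mul_two_pi]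
  simp only [e1]
  refine h4.trans ?_
  rw [hNR, hSR]
  have e2 : π ^ 2 * ((r : ℝ) / N * (1 - (r : ℝ) / N)) = π ^ 2 / (N : ℝ) ^ 2 * ((r : ℝ) * ((N : ℝ) - r)) := by
    field_simp
  rw [e2]
  exact mul_le_mul_of_nonneg_left hIR (by positivity)

theorem t_CERT : S_CERT := by
  intro m z C hm hz hs hG hlow
  have hC : 0 ≤ C := by
    have h1 := hG (Pi.single ⟨0, hm⟩ 1)
    have h2 : 0 ≤ G z (Pi.single (⟨0, hm⟩ : Fin m) (1 : ℝ)) := by
      rw [G]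
      exact mul_nonneg (by norm_num) (tsum_nonneg fun c => term_nonneg hz _ c)
    have h3 : ∑ i, (Pi.single (⟨0, hm⟩ : Fin m) (1 : ℝ) : Fin m → ℝ) i ^ 2 +
        (∑ i, (Pi.single (⟨0, hm⟩ : Fin m) (1 : ℝ) : Fin m → ℝ) i) ^ 2 = 2 := by
      simp [Pi.single_apply, ite_pow]
      norm_num
    rw [h3] at h1
    linarith
  -- second moments
  have m1 : ∀ (s : Finset (Fin m → ℤ)) (i : Fin m), ∑ c ∈ s, z c * (2 * π * (c i : ℝ)) ^ 2 ≤ 2 * C := by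
    intro s i
    have h1 := second_moment hz hs hG s (Pi.single i 1)
    have h3 : ∑ k, (Pi.single i (1 : ℝ) : Fin m → ℝ) k ^ 2 +
        (∑ k, (Pi.single i (1 : ℝ) : Fin m → ℝ) k) ^ 2 = 2 := by
      simp [Pi.single_apply, ite_pow]
      norm_num
    have h4 : ∀ c : Fin m → ℤ, ∑ k, (c k : ℝ) * (Pi.single i (1 : ℝ) : Fin m → ℝ) k = (c i : ℝ) := by
      intro c
      simp [Pi.single_apply]
    simp only [h3, h4] at h1
    linarith
  have m2 : ∀ (s : Finset (Fin m → ℤ)) (i j : Fin m),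
      ∑ c ∈ s, z c * (2 * π * ((c i : ℝ) - c j)) ^ 2 ≤ 2 * C := by
    intro s i j
    have h1 := second_moment hz hs hG s (Pi.single i 1 - Pi.single j 1)
    have h3 : ∑ k, (Pi.single i (1 : ℝ) - Pi.single j 1 : Fin m → ℝ) k ^ 2 ≤ 2 := by
      calc ∑ k, (Pi.single i (1 : ℝ) - Pi.single j 1 : Fin m → ℝ) k ^ 2
          ≤ ∑ k, ((Pi.single i (1 : ℝ) : Fin m → ℝ) k + (Pi.single j (1 : ℝ) : Fin m → ℝ) k) := by
            refine sum_le_sum fun k _ => ?_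
            simp only [Pi.sub_apply, Pi.single_apply]
            split_ifs <;> norm_num
        _ = 2 := by
            rw [sum_add_distrib]
            simp [Pi.single_apply]
            norm_num
    have h5 : ∑ k, (Pi.single i (1 : ℝ) - Pi.single j 1 : Fin m → ℝ) k = 0 := by
      simp [Pi.single_apply]
    have h4 : ∀ c : Fin m → ℤ, ∑ k, (c k : ℝ) * (Pi.single i (1 : ℝ) - Pi.single j 1 : Fin m → ℝ) k =
        (c i : ℝ) - c j := by
      intro c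
      simp [Pi.single_apply, mul_sub]
    simp only [h4] at h1
    rw [h5] at h1
    nlinarith
  have m3 : ∀ s : Finset (Fin m → ℤ), (2 * π) ^ 2 * ∑ c ∈ s, z c *
      (((m : ℝ) + 1) * ∑ i, (c i : ℝ) ^ 2 - (∑ i, (c i : ℝ)) ^ 2) ≤ C * (m * (m + 2)) := by
    intro s
    have e1 : (2 * π) ^ 2 * ∑ c ∈ s, z c * (((m : ℝ) + 1) * ∑ i, (c i : ℝ) ^ 2 - (∑ i, (c i : ℝ)) ^ 2) =
        ∑ i : Fin m, ∑ c ∈ s, z c * (2 * π * (c i : ℝ)) ^ 2 +
        (1 / 2) * ∑ i : Fin m, ∑ j : Fin m, ∑ c ∈ s, z c * (2 * π * ((c i : ℝ) - c j)) ^ 2 := by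
      have e2 : ∑ i : Fin m, ∑ c ∈ s, z c * (2 * π * (c i : ℝ)) ^ 2 =
          ∑ c ∈ s, (2 * π) ^ 2 * (z c * ∑ i, (c i : ℝ) ^ 2) := by
        rw [sum_comm]
        refine sum_congr rfl fun c _ => ?_
        rw [mul_sum, mul_sum]
        exact sum_congr rfl fun i _ => by ring
      have e3 : ∑ i : Fin m, ∑ j : Fin m, ∑ c ∈ s, z c * (2 * π * ((c i : ℝ) - c j)) ^ 2 =
          ∑ c ∈ s, (2 * π) ^ 2 * (z c * ∑ i, ∑ j, ((c i : ℝ) - c j) ^ 2) := by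
        have e4 : ∀ i : Fin m, ∑ j : Fin m, ∑ c ∈ s, z c * (2 * π * ((c i : ℝ) - c j)) ^ 2 =
            ∑ c ∈ s, ∑ j : Fin m, z c * (2 * π * ((c i : ℝ) - c j)) ^ 2 := fun i => sum_comm
        simp only [e4]
        rw [sum_comm]
        refine sum_congr rfl fun c _ => ?_
        rw [mul_sum, mul_sum]
        refine sum_congr rfl fun i _ => ?_
        rw [mul_sum, mul_sum]
        exact sum_congr rfl fun j _ => by ring
      rw [e2, e3, mul_sum, mul_sum, ← sum_add_distrib]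
      refine sum_congr rfl fun c _ => ?_
      rw [← quad]
      ring
    rw [e1]
    have b1 : ∑ i : Fin m, ∑ c ∈ s, z c * (2 * π * (c i : ℝ)) ^ 2 ≤ m * (2 * C) := by
      refine (sum_le_sum fun i _ => m1 s i).trans (le_of_eq ?_)
      rw [sum_const, card_univ, Fintype.card_fin, nsmul_eq_mul]
    have b2 : ∑ i : Fin m, ∑ j : Fin m, ∑ c ∈ s, z c * (2 * π * ((c i : ℝ) - c j)) ^ 2 ≤ m * (m * (2 * C)) := by
      refine (sum_le_sum fun i _ => sum_le_sum fun j _ => m2 s i j).trans (le_of_eq ?_)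
      simp only [sum_const, card_univ, Fintype.card_fin, nsmul_eq_mul]
    nlinarith
  -- the main inequality
  have hsum : HasSum (fun c : Fin m → ℤ => ∑ a ∈ Icc 1 m, 1 / (a : ℝ) ^ 2 *
      (z c * (1 - cos (2 * π * ∑ i, (c i : ℝ) * (-((a : ℝ) / (m + 1)))))))
      (∑ a ∈ Icc 1 m, 1 / (a : ℝ) ^ 2 * (G z (fun _ => -((a : ℝ) / (m + 1))) / 2)) := by
    refine hasSum_sum fun a _ => ?_
    refine HasSum.mul_left _ ?_
    have h1 := (summable_G hz hs (fun _ => -((a : ℝ) / (m + 1)))).hasSum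
    have e : G z (fun _ => -((a : ℝ) / (m + 1))) / 2 =
        ∑' c : Fin m → ℤ, z c * (1 - cos (2 * π * ∑ i, (c i : ℝ) * (-((a : ℝ) / (m + 1))))) := by
      rw [G]
      ring
    rw [e]
    exact h1
  have hle : ∑ a ∈ Icc 1 m, 1 / (a : ℝ) ^ 2 * (G z (fun _ => -((a : ℝ) / (m + 1))) / 2) ≤ C / 4 := by
    refine hasSum_le_of_sum_le hsum fun s => ?_
    have h1 : ∑ c ∈ s, ∑ a ∈ Icc 1 m, 1 / (a : ℝ) ^ 2 *
        (z c * (1 - cos (2 * π * ∑ i, (c i : ℝ) * (-((a : ℝ) / (m + 1)))))) ≤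
        π ^ 2 / ((m : ℝ) + 1) ^ 2 * ∑ c ∈ s, z c *
          (((m : ℝ) + 1) * ∑ i, (c i : ℝ) ^ 2 - (∑ i, (c i : ℝ)) ^ 2) := by
      rw [mul_sum]
      refine sum_le_sum fun c _ => ?_
      calc ∑ a ∈ Icc 1 m, 1 / (a : ℝ) ^ 2 * (z c * (1 - cos (2 * π * ∑ i, (c i : ℝ) * (-((a : ℝ) / (m + 1))))))
          = z c * ∑ a ∈ Icc 1 m, 1 / (a : ℝ) ^ 2 * (1 - cos (2 * π * ∑ i, (c i : ℝ) * (-((a : ℝ) / (m + 1))))) := by
            rw [mul_sum]
            exact sum_congr rfl fun a _ => by ring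
        _ ≤ z c * (π ^ 2 / ((m : ℝ) + 1) ^ 2 * (((m : ℝ) + 1) * ∑ i, (c i : ℝ) ^ 2 - (∑ i, (c i : ℝ)) ^ 2)) :=
            mul_le_mul_of_nonneg_left (key c) (hz c)
        _ = _ := by ring
    refine h1.trans ?_
    have h2 := m3 s
    set Q : ℝ := ∑ c ∈ s, z c * (((m : ℝ) + 1) * ∑ i, (c i : ℝ) ^ 2 - (∑ i, (c i : ℝ)) ^ 2) with hQ
    have h3 : π ^ 2 * Q ≤ C * (m * (m + 2)) / 4 := by nlinarith
    have h4 : π ^ 2 / ((m : ℝ) + 1) ^ 2 * Q = (π ^ 2 * Q) / ((m : ℝ) + 1) ^ 2 := by ring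
    rw [h4, div_le_iff₀ (by positivity)]
    nlinarith
  have hge : (1 / 2) * (∑ a ∈ Icc 1 m, 1 / (a : ℝ) - 1) ≤
      ∑ a ∈ Icc 1 m, 1 / (a : ℝ) ^ 2 * (G z (fun _ => -((a : ℝ) / (m + 1))) / 2) := by
    have h1 : ∑ a ∈ Icc 1 m, (1 / 2) * (1 / (a : ℝ) - 1 / (m + 1)) ≤
        ∑ a ∈ Icc 1 m, 1 / (a : ℝ) ^ 2 * (G z (fun _ => -((a : ℝ) / (m + 1))) / 2) := by
      refine sum_le_sum fun a ha => ?_
      rw [mem_Icc] at ha
      have h2 := hlow a ha.1 ha.2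
      have ha0 : (0 : ℝ) < (a : ℝ) := by exact_mod_cast ha.1
      calc (1 / 2) * (1 / (a : ℝ) - 1 / (m + 1)) = 1 / (a : ℝ) ^ 2 * ((a : ℝ) * (m + 1 - a) / (m + 1) / 2) := by
            field_simp
        _ ≤ _ := by gcongr
    refine le_trans ?_ h1
    rw [← mul_sum, sum_sub_distrib, sum_const, Nat.card_Icc, nsmul_eq_mul]
    have h3 : ((m + 1 - 1 : ℕ) : ℝ) * (1 / ((m : ℝ) + 1)) ≤ 1 := by
      rw [Nat.add_sub_cancel, mul_one_div, div_le_one (by positivity)]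
      linarith
    linarith
  linarith

end Pool.Agent.R506.TECERT
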