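import Pool.Agent.R537.TE.Stm

/-! Project TE (helper537), piece WT by helper506: the weight with two components. -/

set_option autoImplicit false

namespace Pool.Agent.R506.TEWT

open Pool.Agent.R537.TE
open Real Function

lemma inner_E {n : ℕ} (u x : E n) : inner ℝ u x = ∑ i, u i * x i := by
  rw [PiLp.inner_apply]
  refine Finset.sum_congr rfl fun i _ => ?_
  simp [mul_comm]

/-- the dual vector of the first component -/
noncomputable def U {m : ℕ} (c : Fin m → ℤ) : E (m + 1) :=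
  WithLp.toLp 2 (Fin.cons (-((∑ i, (c i : ℝ)) / (m + 1))) (fun i => (c i : ℝ) - (∑ i, (c i : ℝ)) / (m + 1)))

/-- the dual vector of the second component -/
noncomputable def W (m : ℕ) (k : ℤ) : E (m + 1) := WithLp.toLp 2 (fun _ => (k : ℝ) / (m + 1))

lemma inner_U {m : ℕ} (c : Fin m → ℤ) (x : E (m + 1)) : inner ℝ (U c) x = ∑ i, (c i : ℝ) * tc x i := by
  rw [inner_E, Fin.sum_univ_succ]
  have h0 : (U c) 0 = -((∑ i, (c i : ℝ)) / (m + 1)) := rfl
  have h1 : ∀ i : Fin m, (U c) i.succ = (c i : ℝ) - (∑ i, (c i : ℝ)) / (m + 1) := fun i => rfl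
  rw [h0]
  simp only [h1, tc]
  have hm : mean x = (x 0 + ∑ i : Fin m, x i.succ) / (m + 1) := by rw [mean, Fin.sum_univ_succ]
  simp only [mul_sub, sub_mul, Finset.sum_sub_distrib, ← Finset.mul_sum, ← Finset.sum_mul]
  rw [hm]
  ring

lemma inner_W (m : ℕ) (k : ℤ) (x : E (m + 1)) : inner ℝ (W m k) x = (k : ℝ) * mean x := by
  rw [inner_E]
  have h1 : ∀ i, (W m k) i = (k : ℝ) / (m + 1) := fun i => rfl
  simp only [h1, ← Finset.mul_sum, mean]
  ring

lemma mean_int {m : ℕ} {v : E (m + 1)} (hv : v ∈ LL m) : ∃ (k : Fin (m + 1) → ℤ) (d : ℤ),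
    (∀ i, v i = (k i : ℝ)) ∧ mean v = (d : ℝ) := by
  obtain ⟨k, hk, d, hd⟩ := hv
  refine ⟨k, d, hk, ?_⟩
  have h1 : ∑ i, v i = ((m : ℝ) + 1) * d := by
    simp only [hk]
    exact_mod_cast hd
  rw [mean, h1]
  field_simp

lemma U_mem {m : ℕ} (c : Fin m → ℤ) : U c ∈ dual (LL m) := by
  intro v hv
  obtain ⟨k, d, hk, hd⟩ := mean_int hv
  refine ⟨∑ i, c i * (k i.succ - d), ?_⟩
  rw [inner_U]
  push_cast
  refine Finset.sum_congr rfl fun i _ => ?_
  rw [tc, hk, hd]

lemma W_mem (m : ℕ) (k : ℤ) : W m k ∈ dual (LL m) := by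
  intro v hv
  obtain ⟨_, d, _, hd⟩ := mean_int hv
  refine ⟨k * d, ?_⟩
  rw [inner_W, hd]
  push_cast
  rfl

/-- `U` into the dual lattice -/
noncomputable def U' {m : ℕ} (c : Fin m → ℤ) : dual (LL m) := ⟨U c, U_mem c⟩

/-- `W` into the dual lattice -/
noncomputable def W' (m : ℕ) (k : ℤ) : dual (LL m) := ⟨W m k, W_mem m k⟩

lemma U'_inj {m : ℕ} : Injective (U' (m := m)) := by
  intro c c' h
  have h1 : U c = U c' := congrArg Subtype.val h
  funext i
  have h2 : (U c) i.succ - (U c) 0 = (U c') i.succ - (U c') 0 := by rw [h1]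
  have e : ∀ c : Fin m → ℤ, (U c) i.succ - (U c) 0 = (c i : ℝ) := by
    intro c
    have h0 : (U c) 0 = -((∑ i, (c i : ℝ)) / (m + 1)) := rfl
    have h1 : (U c) i.succ = (c i : ℝ) - (∑ i, (c i : ℝ)) / (m + 1) := rfl
    rw [h0, h1]
    ring
  rw [e c, e c'] at h2
  exact Int.cast_injective (α := ℝ) h2

lemma W'_inj (m : ℕ) : Injective (W' m) := by
  intro k k' h
  have h1 : W m k = W m k' := congrArg Subtype.val h
  have h2 : (W m k) 0 = (W m k') 0 := by rw [h1]
  have e : ∀ k : ℤ, (W m k) 0 = (k : ℝ) / (m + 1) := fun k => rfl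
  rw [e, e] at h2
  have h3 : ((m : ℝ) + 1) ≠ 0 := by positivity
  rw [div_left_inj' h3] at h2
  exact_mod_cast h2

lemma U_neg {m : ℕ} (c : Fin m → ℤ) : U (-c) = -U c := by
  ext i
  refine Fin.cases ?_ (fun j => ?_) i
  · have h0 : ∀ c : Fin m → ℤ, (U c) 0 = -((∑ i, (c i : ℝ)) / (m + 1)) := fun c => rfl
    rw [PiLp.neg_apply, h0, h0]
    simp only [Pi.neg_apply, Int.cast_neg, Finset.sum_neg_distrib]
    ring
  · have h0 : ∀ c : Fin m → ℤ, (U c) j.succ = (c j : ℝ) - (∑ i, (c i : ℝ)) / (m + 1) := fun c => rfl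
    rw [PiLp.neg_apply, h0, h0]
    simp only [Pi.neg_apply, Int.cast_neg, Finset.sum_neg_distrib]
    ring

lemma W_neg (m : ℕ) (k : ℤ) : W m (-k) = -W m k := by
  ext i
  have h0 : ∀ k : ℤ, (W m k) i = (k : ℝ) / (m + 1) := fun k => rfl
  rw [PiLp.neg_apply, h0, h0]
  push_cast
  ring

lemma ext_even {α β : Type*} (g : α → β) (hg : Injective g) (f : α → ℝ) (ν : α → α) (hf : ∀ a, f (ν a) = f a)
    (u v : β) (h1 : ∀ a, g a = u → g (ν a) = v) (h2 : ∀ a, g a = v → g (ν a) = u) :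
    extend g f 0 v = extend g f 0 u := by
  by_cases hu : ∃ a, g a = u
  · obtain ⟨a, rfl⟩ := hu
    rw [← h1 a rfl, hg.extend_apply, hg.extend_apply, hf]
  · have hv : ¬ ∃ a, g a = v := fun ⟨a, ha⟩ => hu ⟨ν a, h2 a ha⟩
    rw [extend_apply' _ _ _ hu, extend_apply' _ _ _ hv]
    rfl

lemma ext_nonneg {α β : Type*} (g : α → β) (hg : Injective g) (f : α → ℝ) (hf : ∀ a, 0 ≤ f a) (u : β) :
    0 ≤ extend g f 0 u := by
  by_cases hu : ∃ a, g a = u
  · obtain ⟨a, rfl⟩ := hu
    rw [hg.extend_apply]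
    exact hf a
  · rw [extend_apply' _ _ _ hu]
    exact le_rfl

lemma ext_mul {α β : Type*} (g : α → β) (hg : Injective g) (f : α → ℝ) (φ : β → ℝ) (u : β) :
    extend g f 0 u * φ u = extend g (fun a => f a * φ (g a)) 0 u := by
  by_cases hu : ∃ a, g a = u
  · obtain ⟨a, rfl⟩ := hu
    rw [hg.extend_apply, hg.extend_apply]
  · rw [extend_apply' _ _ _ hu, extend_apply' _ _ _ hu]
    simp

/-- the weights on the multiples of `ones / (m + 1)` -/
noncomputable def z2 (m : ℕ) (a : ℝ) (k : ℤ) : ℝ :=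
  if k ∈ ({1, -1, 3, -3} : Finset ℤ) then ((m : ℝ) + 1) * a / 4 else 0

lemma z2_sum (m : ℕ) (a τ : ℝ) : HasSum (fun k : ℤ => z2 m a k * (1 - cos (2 * π * ((k : ℝ) * τ))))
    ((m + 1) * fone a τ / 2) := by
  have h1 : HasSum (fun k : ℤ => z2 m a k * (1 - cos (2 * π * ((k : ℝ) * τ))))
      (∑ k ∈ ({1, -1, 3, -3} : Finset ℤ), z2 m a k * (1 - cos (2 * π * ((k : ℝ) * τ)))) := by
    refine hasSum_sum_of_ne_finset_zero fun k hk => ?_
    rw [z2, if_neg hk, zero_mul]
  convert h1 using 1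
  rw [Finset.sum_insert (by decide), Finset.sum_insert (by decide), Finset.sum_insert (by decide),
    Finset.sum_singleton]
  have e : ∀ k ∈ ({1, -1, 3, -3} : Finset ℤ), z2 m a k = ((m : ℝ) + 1) * a / 4 := fun k hk => by
    rw [z2, if_pos hk]
  rw [e 1 (by decide), e (-1) (by decide), e 3 (by decide), e (-3) (by decide)]
  push_cast
  have c1 : cos (2 * π * (-1 * τ)) = cos (2 * π * τ) := by
    rw [← cos_neg]
    ring_nf
  have c2 : cos (2 * π * (-3 * τ)) = cos (6 * π * τ) := by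
    rw [← cos_neg]
    ring_nf
  have c3 : cos (2 * π * (3 * τ)) = cos (6 * π * τ) := by ring_nf
  rw [c1, c2, c3, one_mul, fone]
  ring

theorem t_WT : S_WT := by
  intro m z a hz hzs hze ha
  have hU : Injective (U' (m := m)) := U'_inj
  have hW : Injective (W' m) := W'_inj m
  have hz2 : ∀ k, 0 ≤ z2 m a k := by
    intro k
    rw [z2]
    split_ifs
    · positivity
    · exact le_rfl
  have hz2s : Summable (z2 m a) := by
    refine summable_of_ne_finset_zero (s := ({1, -1, 3, -3} : Finset ℤ)) fun k hk => ?_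
    rw [z2, if_neg hk]
  refine ⟨⟨fun u => extend U' z 0 u + extend (W' m) (z2 m a) 0 u, fun u => ?_, ?_, fun u v huv => ?_⟩, fun x => ?_⟩
  · exact add_nonneg (ext_nonneg _ hU _ hz _) (ext_nonneg _ hW _ hz2 _)
  · exact ((summable_extend_zero hU).mpr hzs).add ((summable_extend_zero hW).mpr hz2s)
  · have key : ∀ (y y' : dual (LL m)), (y' : E (m + 1)) = -(y : E (m + 1)) →
        (∀ c, U' c = y → U' (-c) = y') ∧ (∀ k, W' m k = y → W' m (-k) = y') := by
      intro y y' hy
      refine ⟨fun c hc => ?_, fun k hk => ?_⟩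
      · apply Subtype.ext
        rw [hy, ← hc]
        exact U_neg c
      · apply Subtype.ext
        rw [hy, ← hk]
        exact W_neg m k
    have huv' : (u : E (m + 1)) = -(v : E (m + 1)) := by rw [huv, neg_neg]
    rw [ext_even U' hU z (fun c => -c) hze u v (key u v huv).1 (key v u huv').1,
      ext_even (W' m) hW (z2 m a) (fun k => -k) (fun k => ?_) u v (key u v huv).2 (key v u huv').2]
    rw [z2, z2]
    have : (-k ∈ ({1, -1, 3, -3} : Finset ℤ)) ↔ k ∈ ({1, -1, 3, -3} : Finset ℤ) := by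
      simp only [Finset.mem_insert, Finset.mem_singleton]
      omega
    simp only [this]
  · have s1 : Summable fun c : Fin m → ℤ => z c * (1 - cos (2 * π * ∑ i, (c i : ℝ) * tc x i)) := by
      refine Summable.of_norm_bounded (hzs.mul_right 2) fun c => ?_
      rw [norm_mul, Real.norm_eq_abs, Real.norm_eq_abs, abs_of_nonneg (hz c)]
      refine mul_le_mul_of_nonneg_left ?_ (hz c)
      rw [abs_le]
      constructor <;> linarith [cos_le_one (2 * π * ∑ i, (c i : ℝ) * tc x i), neg_one_le_cos (2 * π * ∑ i, (c i : ℝ) * tc x i)]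
    have h1 : HasSum (fun u : dual (LL m) => extend U' z 0 u * (1 - cos (2 * π * inner ℝ (u : E (m + 1)) x)))
        (∑' c : Fin m → ℤ, z c * (1 - cos (2 * π * ∑ i, (c i : ℝ) * tc x i))) := by
      have e : (fun u : dual (LL m) => extend U' z 0 u * (1 - cos (2 * π * inner ℝ (u : E (m + 1)) x))) =
          extend U' (fun c => z c * (1 - cos (2 * π * ∑ i, (c i : ℝ) * tc x i))) 0 := by
        funext u
        rw [ext_mul U' hU z (fun u : dual (LL m) => 1 - cos (2 * π * inner ℝ (u : E (m + 1)) x)) u]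
        congr 1
        funext c
        rw [show ((U' c : dual (LL m)) : E (m + 1)) = U c from rfl, inner_U]
      rw [e]
      exact (hasSum_extend_zero hU).mpr s1.hasSum
    have h2 : HasSum (fun u : dual (LL m) => extend (W' m) (z2 m a) 0 u *
        (1 - cos (2 * π * inner ℝ (u : E (m + 1)) x))) ((m + 1) * fone a (mean x) / 2) := by
      have e : (fun u : dual (LL m) => extend (W' m) (z2 m a) 0 u *
          (1 - cos (2 * π * inner ℝ (u : E (m + 1)) x))) =
          extend (W' m) (fun k => z2 m a k * (1 - cos (2 * π * ((k : ℝ) * mean x)))) 0 := by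
        funext u
        rw [ext_mul (W' m) hW (z2 m a) (fun u : dual (LL m) => 1 - cos (2 * π * inner ℝ (u : E (m + 1)) x)) u]
        congr 1
        funext k
        rw [show ((W' m k : dual (LL m)) : E (m + 1)) = W m k from rfl, inner_W]
      rw [e]
      exact (hasSum_extend_zero hW).mpr (z2_sum m a (mean x))
    have h3 := (h1.add h2).tsum_eq
    rw [Weight.F, G]
    simp only [← add_mul] at h3
    rw [h3]
    ring

end Pool.Agent.R506.TEWT
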